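import Mathlib

set_option autoImplicit false
set_option linter.unusedSectionVars false

/-!
# The groups `GL_d(𝔽₂)`: generation by elementary transvections, and simplicity
-/

namespace Pool.Agent.H87R2.GLTwo

open Matrix

variable (d : ℕ) [NeZero d]

/-- matrices over the field with two elements indexed by `ℤ/d` -/
abbrev Mt : Type := Matrix (ZMod d) (ZMod d) (ZMod 2)

/-- invertible matrices over the field with two elements -/
abbrev S : Type := (Mt d)ˣ

variable {d}

lemma two_eq (a : ZMod 2) : a + a = 0 := by revert a; decide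

lemma add_self (A : Mt d) : A + A = 0 := by
  ext i j
  exact two_eq _

lemma vadd_self (x : ZMod d → ZMod 2) : x + x = 0 := by
  ext i
  exact two_eq _

lemma eq_one_of_ne {a : ZMod 2} (h : a ≠ 0) : a = 1 := by revert a; decide

lemma sq_tv {x y : ZMod d → ZMod 2} (h : y ⬝ᵥ x = 0) :
    (1 + vecMulVec x y : Mt d) * (1 + vecMulVec x y) = 1 := by
  have h1 : (vecMulVec x y : Mt d) * vecMulVec x y = 0 := by
    rw [vecMulVec_mul_vecMulVec, h, zero_smul]
    simp
  have h2 : (1 + vecMulVec x y : Mt d) * (1 + vecMulVec x y) =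
      1 + (vecMulVec x y + vecMulVec x y) + vecMulVec x y * vecMulVec x y := by noncomm_ring
  rw [h2, h1, add_self, add_zero, add_zero]

/-- transvections -/
def tv (x y : ZMod d → ZMod 2) (h : y ⬝ᵥ x = 0) : S d :=
  ⟨1 + vecMulVec x y, 1 + vecMulVec x y, sq_tv h, sq_tv h⟩

lemma tv_val (x y : ZMod d → ZMod 2) (h : y ⬝ᵥ x = 0) : (tv x y h : Mt d) = 1 + vecMulVec x y := rfl

lemma tv_inv (x y : ZMod d → ZMod 2) (h : y ⬝ᵥ x = 0) : (tv x y h)⁻¹ = tv x y h := rfl

/-- elementary transvections -/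
def E (i j : ZMod d) (h : i ≠ j) : S d := tv (Pi.single i 1) (Pi.single j 1) (by
  rw [single_dotProduct, Pi.single_eq_of_ne h.symm, mul_zero])

lemma E_val (i j : ZMod d) (h : i ≠ j) : (E i j h : Mt d) = 1 + Matrix.single i j 1 := by
  rw [E, tv_val, ← single_eq_single_vecMulVec_single]

/-- elementary transvections generate -/
lemma closure_E : Subgroup.closure {g : S d | ∃ i j h, g = E i j h} = ⊤ := by
  rw [eq_top_iff]
  rintro g -
  have h1 : ∀ M : Mt d, M.det ≠ 0 → ∃ U ∈ Subgroup.closure {g : S d | ∃ i j h, g = E i j h},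
      (U : Mt d) = M := by
    intro M hM
    refine diagonal_transvection_induction_of_det_ne_zero
      (fun M => ∃ U ∈ Subgroup.closure {g : S d | ∃ i j h, g = E i j h}, (U : Mt d) = M)
      M hM ?_ ?_ ?_
    · intro D hD
      refine ⟨1, one_mem _, ?_⟩
      rw [det_diagonal] at hD
      have h2 : ∀ i, D i = 1 := by
        intro i
        apply eq_one_of_ne
        intro h3
        exact hD (Finset.prod_eq_zero (Finset.mem_univ i) h3)
      have h3 : D = fun _ => 1 := funext h2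
      rw [h3, diagonal_one]
      rfl
    · intro t
      obtain ⟨i, j, hij, c⟩ := t
      by_cases hc : c = 0
      · refine ⟨1, one_mem _, ?_⟩
        simp [TransvectionStruct.toMatrix, transvection, hc]
      · refine ⟨E i j hij, Subgroup.subset_closure ⟨i, j, hij, rfl⟩, ?_⟩
        rw [E_val]
        simp [TransvectionStruct.toMatrix, transvection, eq_one_of_ne hc]
    · rintro A B _ _ ⟨U, hU, hUA⟩ ⟨V, hV, hVB⟩
      exact ⟨U * V, mul_mem hU hV, by rw [Units.val_mul, hUA, hVB]⟩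
  obtain ⟨U, hU, hUg⟩ := h1 (g : Mt d) (by
    have := (Matrix.isUnit_iff_isUnit_det (g : Mt d)).1 g.isUnit
    exact this.ne_zero)
  have h2 : U = g := Units.ext hUg
  rwa [← h2]

/-! ### simplicity -/

/-- the transvection with parameters `x, y` lies in `N` -/
def TT (N : Subgroup (S d)) (x y : ZMod d → ZMod 2) : Prop :=
  ∃ U ∈ N, (U : Mt d) = 1 + vecMulVec x y

lemma conj_tv (A : S d) (x y : ZMod d → ZMod 2) (h : y ⬝ᵥ x = 0) :
    ((A * tv x y h * A⁻¹ : S d) : Mt d) =
      1 + vecMulVec ((A : Mt d) *ᵥ x) (y ᵥ* ((A⁻¹ : S d) : Mt d)) := by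
  rw [Units.val_mul, Units.val_mul, tv_val, mul_add, mul_one, add_mul, ← Units.val_mul,
    mul_inv_cancel, mul_vecMulVec, vecMulVec_mul]
  rfl

lemma comm_mem {N : Subgroup (S d)} (hN : N.Normal) {A : S d} (hA : A ∈ N) (B : S d) :
    B * A * B⁻¹ * A⁻¹ ∈ N := mul_mem (hN.conj_mem A hA B) (inv_mem hA)

lemma comm_mem' {N : Subgroup (S d)} (hN : N.Normal) {A : S d} (hA : A ∈ N) (B : S d) :
    A * B * A⁻¹ * B⁻¹ ∈ N := by
  have : A * B * A⁻¹ * B⁻¹ = A * (B * A⁻¹ * B⁻¹) := by group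
  rw [this]
  exact mul_mem hA (hN.conj_mem _ (inv_mem hA) B)

lemma mul_form (a b c e : ZMod d → ZMod 2) :
    (1 + vecMulVec a b : Mt d) * (1 + vecMulVec c e) =
      1 + vecMulVec a b + vecMulVec c e + (b ⬝ᵥ c) • vecMulVec a e := by
  have h2 : (1 + vecMulVec a b : Mt d) * (1 + vecMulVec c e) =
      1 + vecMulVec a b + vecMulVec c e + vecMulVec a b * vecMulVec c e := by noncomm_ring
  rw [h2, vecMulVec_mul_vecMulVec, vecMulVec_smul]

/-- two linear conditions have a common nonzero solution in dimension at least three -/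
lemma exists_orth (hd : 3 ≤ d) (a b : ZMod d → ZMod 2) :
    ∃ g : ZMod d → ZMod 2, g ≠ 0 ∧ g ⬝ᵥ a = 0 ∧ g ⬝ᵥ b = 0 := by
  let f : (ZMod d → ZMod 2) → ZMod 2 × ZMod 2 := fun g => (g ⬝ᵥ a, g ⬝ᵥ b)
  have hcard : Fintype.card (ZMod 2 × ZMod 2) < Fintype.card (ZMod d → ZMod 2) := by
    rw [Fintype.card_prod, Fintype.card_fun, ZMod.card, ZMod.card]
    calc 2 * 2 < 2 ^ 3 := by norm_num
      _ ≤ 2 ^ d := Nat.pow_le_pow_right (by norm_num) hd
  obtain ⟨g, g', hne, he⟩ := Fintype.exists_ne_map_eq_of_card_lt f hcard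
  have h1 : g ⬝ᵥ a = g' ⬝ᵥ a := congrArg Prod.fst he
  have h2 : g ⬝ᵥ b = g' ⬝ᵥ b := congrArg Prod.snd he
  refine ⟨g - g', sub_ne_zero.2 hne, ?_, ?_⟩
  · rw [sub_dotProduct, h1, sub_self]
  · rw [sub_dotProduct, h2, sub_self]

/-- if `g ≠ 0` and `g ≠ y`, some `u` has `g u = 1` and `y u = 0` -/
lemma exists_sep {g y : ZMod d → ZMod 2} (hg : g ≠ 0) (hgy : g ≠ y) :
    ∃ u : ZMod d → ZMod 2, g ⬝ᵥ u = 1 ∧ y ⬝ᵥ u = 0 := by
  by_contra hcon
  push Not at hcon
  obtain ⟨i, hi⟩ : ∃ i, g i ≠ 0 := by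
    by_contra h
    push Not at h
    exact hg (funext h)
  have hgi := eq_one_of_ne hi
  -- y i = 1
  have hyi : y i = 1 := by
    apply eq_one_of_ne
    intro h
    refine hcon (Pi.single i 1) ?_ ?_
    · rw [dotProduct_single, hgi, mul_one]
    · rw [dotProduct_single, h, zero_mul]
  apply hgy
  funext j
  by_contra hne
  by_cases hj : g j = 1
  · have hyj : y j = 0 := by
      by_contra h
      exact hne (hj.trans (eq_one_of_ne h).symm)
    refine hcon (Pi.single j 1) ?_ ?_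
    · rw [dotProduct_single, hj, mul_one]
    · rw [dotProduct_single, hyj, zero_mul]
  · have hgj : g j = 0 := by
      by_contra h
      exact hj (eq_one_of_ne h)
    have hyj : y j = 1 := by
      apply eq_one_of_ne
      intro h
      exact hne (hgj.trans h.symm)
    refine hcon (Pi.single i 1 + Pi.single j 1) ?_ ?_
    · rw [dotProduct_add, dotProduct_single, dotProduct_single, hgi, hgj]
      decide
    · rw [dotProduct_add, dotProduct_single, dotProduct_single, hyi, hyj]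
      decide

lemma TT.vary_right {N : Subgroup (S d)} (hN : N.Normal) {w g : ZMod d → ZMod 2}
    (h : TT N w g) (hg : g ≠ 0) (hgw : g ⬝ᵥ w = 0) {y : ZMod d → ZMod 2} (hy : y ⬝ᵥ w = 0) :
    TT N w y := by
  by_cases hgy : g = y
  · rwa [← hgy]
  obtain ⟨u, hu1, hu2⟩ := exists_sep hg hgy
  obtain ⟨C, hC, hCv⟩ := h
  have hCinv : ((C⁻¹ : S d) : Mt d) = 1 + vecMulVec w g := by
    have h1 : C = tv w g hgw := Units.ext hCv
    rw [h1, tv_inv, tv_val]
  refine ⟨_, comm_mem' hN hC (tv u y hu2), ?_⟩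
  rw [Units.val_mul, conj_tv, tv_inv, tv_val, hCv, hCinv]
  have e1 : (1 + vecMulVec w g : Mt d) *ᵥ u = u + w := by
    rw [add_mulVec, one_mulVec, vecMulVec_mulVec, hu1]
    simp
  have e2 : y ᵥ* (1 + vecMulVec w g : Mt d) = y := by
    rw [vecMul_add, vecMul_one, vecMul_vecMulVec, hy]
    simp
  rw [e1, e2, mul_form, hu2, zero_smul, add_zero, add_vecMulVec]
  have e3 : (1 : Mt d) + (vecMulVec u y + vecMulVec w y) + vecMulVec u y =
      1 + vecMulVec w y + (vecMulVec u y + vecMulVec u y) := by abel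
  rw [e3, add_self, add_zero]

lemma TT.vary_left {N : Subgroup (S d)} (hN : N.Normal) {w g : ZMod d → ZMod 2}
    (h : TT N w g) (hw : w ≠ 0) (hgw : g ⬝ᵥ w = 0) {x : ZMod d → ZMod 2} (hx : g ⬝ᵥ x = 0) :
    TT N x g := by
  by_cases hwx : w = x
  · rwa [← hwx]
  obtain ⟨h', hh1, hh2⟩ := exists_sep hw hwx
  rw [dotProduct_comm] at hh1 hh2
  obtain ⟨C, hC, hCv⟩ := h
  have hC1 : C = tv w g hgw := Units.ext hCv
  subst hC1
  refine ⟨_, comm_mem hN hC (tv x h' hh2), ?_⟩
  rw [Units.val_mul, conj_tv, tv_inv, tv_inv, tv_val, tv_val]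
  have e1 : (1 + vecMulVec x h' : Mt d) *ᵥ w = w + x := by
    rw [add_mulVec, one_mulVec, vecMulVec_mulVec, hh1]
    simp
  have e2 : g ᵥ* (1 + vecMulVec x h' : Mt d) = g := by
    rw [vecMul_add, vecMul_one, vecMul_vecMulVec, hx]
    simp
  rw [e1, e2, mul_form, hgw, zero_smul, add_zero, add_vecMulVec]
  have e3 : (1 : Mt d) + (vecMulVec w g + vecMulVec x g) + vecMulVec w g =
      1 + vecMulVec x g + (vecMulVec w g + vecMulVec w g) := by abel
  rw [e3, add_self, add_zero]

lemma TT.all (hd : 3 ≤ d) {N : Subgroup (S d)} (hN : N.Normal) {w g : ZMod d → ZMod 2}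
    (h : TT N w g) (hw : w ≠ 0) (hg : g ≠ 0) (hgw : g ⬝ᵥ w = 0) {x y : ZMod d → ZMod 2}
    (hyx : y ⬝ᵥ x = 0) : TT N x y := by
  obtain ⟨y', hy', h1, h2⟩ := exists_orth hd w x
  have h3 : TT N w y' := h.vary_right hN hg hgw h1
  have h4 : TT N x y' := h3.vary_left hN hw h1 h2
  exact h4.vary_right hN hy' h2 hyx

/-- a normal subgroup containing a transvection is everything -/
lemma eq_top_of_TT (hd : 3 ≤ d) {N : Subgroup (S d)} (hN : N.Normal) {w g : ZMod d → ZMod 2}
    (h : TT N w g) (hw : w ≠ 0) (hg : g ≠ 0) (hgw : g ⬝ᵥ w = 0) : N = ⊤ := by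
  rw [eq_top_iff, ← closure_E, Subgroup.closure_le]
  rintro _ ⟨i, j, hij, rfl⟩
  obtain ⟨U, hU, hUv⟩ := h.all hd hN hw hg hgw (x := Pi.single i 1) (y := Pi.single j 1)
    (by rw [single_dotProduct, Pi.single_eq_of_ne hij.symm, mul_zero])
  have : U = E i j hij := Units.ext hUv
  rwa [← this]

/-- a nontrivial normal subgroup is everything -/
theorem simple (hd : 3 ≤ d) (N : Subgroup (S d)) (hN : N.Normal) {A : S d} (hA : A ∈ N)
    (hA1 : A ≠ 1) : N = ⊤ := by
  -- a moved vector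
  obtain ⟨a, ha⟩ : ∃ a, (A : Mt d) *ᵥ a ≠ a := by
    by_contra h
    push Not at h
    apply hA1
    apply Units.ext
    apply Matrix.ext_of_mulVec_single
    intro i
    rw [h, Units.val_one, one_mulVec]
  have ha0 : a ≠ 0 := by
    rintro rfl
    exact ha (by simp)
  obtain ⟨f, hf0, hfa, -⟩ := exists_orth hd a a
  set a' := (A : Mt d) *ᵥ a with ha'
  set f' := f ᵥ* ((A⁻¹ : S d) : Mt d) with hf'
  set B : S d := A * tv a f hfa * A⁻¹ * (tv a f hfa)⁻¹ with hB
  have hBN : B ∈ N := comm_mem' hN hA _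
  have hBv : (B : Mt d) = 1 + vecMulVec a' f' + vecMulVec a f + (f' ⬝ᵥ a) • vecMulVec a' f := by
    rw [hB, Units.val_mul, conj_tv, tv_inv, tv_val, mul_form]
  -- B is not trivial
  have hB1 : B ≠ 1 := by
    intro h
    have h1 : A * tv a f hfa * A⁻¹ = tv a f hfa := by
      have := congrArg (fun t => t * tv a f hfa) h
      simpa [hB] using this
    have h2 := congrArg (fun U : S d => (U : Mt d)) h1
    simp only [conj_tv, tv_val] at h2
    have h3 := add_left_cancel h2
    obtain ⟨j, hj⟩ : ∃ j, f j ≠ 0 := by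
      by_contra h
      push Not at h
      exact hf0 (funext h)
    have hj1 := eq_one_of_ne hj
    have h4 : ∀ i, a' i * f' j = a i := by
      intro i
      have := congrFun (congrFun h3 i) j
      rw [vecMulVec_apply, vecMulVec_apply, hj1, mul_one] at this
      exact this
    apply ha
    funext i
    by_cases hfj : f' j = 0
    · exfalso
      apply ha0
      funext k
      rw [← h4 k, hfj, mul_zero]
      rfl
    · rw [← h4 i, eq_one_of_ne hfj, mul_one]
  obtain ⟨g, hg0, hga, hga'⟩ := exists_orth hd a a'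
  have hgB : g ᵥ* (B : Mt d) = g := by
    rw [hBv, vecMul_add, vecMul_add, vecMul_add, vecMul_one, vecMul_smul, vecMul_vecMulVec,
      vecMul_vecMulVec, vecMul_vecMulVec, hga, hga']
    simp
  have hgBi : g ᵥ* ((B⁻¹ : S d) : Mt d) = g := by
    conv_lhs => rw [← hgB]
    rw [vecMul_vecMul, ← Units.val_mul, mul_inv_cancel, Units.val_one, vecMul_one]
  by_cases hc : ∃ c, g ⬝ᵥ c = 0 ∧ (B : Mt d) *ᵥ c ≠ c
  · obtain ⟨c, hgc, hBc⟩ := hc
    refine eq_top_of_TT hd hN (w := (B : Mt d) *ᵥ c + c) (g := g)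
      ⟨_, comm_mem' hN hBN (tv c g hgc), ?_⟩ ?_ hg0 ?_
    · rw [Units.val_mul, conj_tv, tv_inv, tv_val, hgBi, mul_form, hgc, zero_smul, add_zero,
        add_vecMulVec, add_assoc]
    · intro h
      apply hBc
      have h1 : (B : Mt d) *ᵥ c + c = c + c := by rw [h, vadd_self]
      exact add_right_cancel h1
    · rw [dotProduct_add, hgc, add_zero, dotProduct_mulVec, hgB, hgc]
  · push Not at hc
    obtain ⟨i, hi⟩ : ∃ i, g i ≠ 0 := by
      by_contra h
      push Not at h
      exact hg0 (funext h)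
    have hgi := eq_one_of_ne hi
    set c0 : ZMod d → ZMod 2 := Pi.single i 1 with hc0
    have hgc0 : g ⬝ᵥ c0 = 1 := by rw [hc0, dotProduct_single, hgi, mul_one]
    set w := (B : Mt d) *ᵥ c0 + c0 with hw
    have hBw : (B : Mt d) = 1 + vecMulVec w g := by
      apply Matrix.ext_of_mulVec_single
      intro j
      rw [add_mulVec, one_mulVec, vecMulVec_mulVec]
      by_cases hj : g ⬝ᵥ Pi.single j 1 = 0
      · rw [hc _ hj, hj]
        simp
      · have hj1 := eq_one_of_ne hj
        have h1 : g ⬝ᵥ (Pi.single j 1 - c0) = 0 := by rw [dotProduct_sub, hj1, hgc0, sub_self]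
        have h2 := hc _ h1
        rw [mulVec_sub, sub_eq_iff_eq_add] at h2
        rw [hj1, h2]
        simp only [MulOpposite.op_one, one_smul]
        rw [hw]
        have h3 : (Pi.single j 1 : ZMod d → ZMod 2) - c0 = Pi.single j 1 + c0 := by
          rw [sub_eq_add_neg, neg_eq_of_add_eq_zero_left (vadd_self c0)]
        rw [h3]
        abel
    have hgw : g ⬝ᵥ w = 0 := by
      rw [hw, dotProduct_add, dotProduct_mulVec, hgB, hgc0]
      decide
    refine eq_top_of_TT hd hN (w := w) (g := g) ⟨B, hBN, hBw⟩ ?_ hg0 hgw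
    rintro h
    apply hB1
    apply Units.ext
    rw [hBw, h, zero_vecMulVec, add_zero]
    rfl

end Pool.Agent.H87R2.GLTwo
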