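import Mathlib

set_option autoImplicit false

/-!
# A lower bound for the least common multiple of `2 ^ 1 - 1, …, 2 ^ d - 1`
-/

namespace Pool.Agent.H87R2.LcmBound

open Finset

/-- distributivity of gcd over lcm -/
lemma gcd_lcm_dvd (x y z : ℕ) : Nat.gcd (Nat.lcm x y) z ∣ Nat.lcm (Nat.gcd x z) (Nat.gcd y z) := by
  rcases Nat.eq_zero_or_pos x with rfl | hx
  · rw [Nat.lcm_zero_left, Nat.gcd_zero_left]
    exact Nat.dvd_lcm_left _ _
  rcases Nat.eq_zero_or_pos y with rfl | hy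
  · rw [Nat.lcm_zero_right, Nat.gcd_zero_left]
    exact Nat.dvd_lcm_right _ _
  rcases Nat.eq_zero_or_pos z with rfl | hz
  · simp
  have hx' := hx.ne'
  have hy' := hy.ne'
  have hz' := hz.ne'
  have h1 : Nat.gcd (Nat.lcm x y) z ≠ 0 := Nat.gcd_ne_zero_right hz'
  have h2 : Nat.gcd x z ≠ 0 := Nat.gcd_ne_zero_right hz'
  have h3 : Nat.gcd y z ≠ 0 := Nat.gcd_ne_zero_right hz'
  rw [← Nat.factorization_le_iff_dvd h1 (Nat.lcm_ne_zero h2 h3),
    Nat.factorization_gcd (Nat.lcm_ne_zero hx' hy') hz', Nat.factorization_lcm hx' hy',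
    Nat.factorization_lcm h2 h3, Nat.factorization_gcd hx' hz', Nat.factorization_gcd hy' hz']
  intro p
  simp only [Finsupp.inf_apply, Finsupp.sup_apply]
  exact le_of_eq (inf_sup_right _ _ _)

/-- the Mersenne numbers -/
def a (n : ℕ) : ℕ := 2 ^ n - 1

lemma a_pos {n : ℕ} (hn : 1 ≤ n) : 0 < a n := by
  have := Nat.pow_le_pow_right (n := 2) (by norm_num) hn
  unfold a
  omega

lemma a_lt (n : ℕ) : a n < 2 ^ n := by
  have := Nat.pow_pos (n := n) (show 0 < 2 by norm_num)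
  unfold a
  omega

lemma le_a {n : ℕ} (hn : 1 ≤ n) : 2 ^ (n - 1) ≤ a n := by
  obtain ⟨k, rfl⟩ : ∃ k, n = k + 1 := ⟨n - 1, by omega⟩
  have := Nat.pow_pos (n := k) (show 0 < 2 by norm_num)
  unfold a
  rw [Nat.add_sub_cancel, pow_succ]
  omega

lemma gcd_lcm_finset (J : Finset ℕ) (f : ℕ → ℕ) (z : ℕ) :
    Nat.gcd (J.lcm f) z ∣ J.lcm fun j => Nat.gcd (f j) z := by
  induction J using Finset.induction_on with
  | empty => simp
  | insert j J hj ih =>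
    rw [Finset.lcm_insert, Finset.lcm_insert]
    refine (gcd_lcm_dvd _ _ _).trans ?_
    exact Nat.lcm_dvd (Nat.dvd_lcm_left _ _) (ih.trans (Nat.dvd_lcm_right _ _))

/-- the least common multiple -/
def L (n : ℕ) : ℕ := (Finset.Icc 1 n).lcm a

lemma L_pos (n : ℕ) : 0 < L n := by
  rw [Nat.pos_iff_ne_zero, L, Ne, Finset.lcm_eq_zero_iff]
  rintro ⟨x, hx, hx0⟩
  have := a_pos (Finset.mem_Icc.1 hx).1
  omega

/-- the product over proper divisors -/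
def f (n : ℕ) : ℕ := ∏ e ∈ n.properDivisors, a e

lemma f_pos (n : ℕ) : 0 < f n := by
  refine Finset.prod_pos fun e he => a_pos ?_
  exact Nat.pos_of_mem_properDivisors he

lemma gcd_dvd_f (n : ℕ) : Nat.gcd (L n) (a (n + 1)) ∣ f (n + 1) := by
  refine (gcd_lcm_finset _ _ _).trans ?_
  refine Finset.lcm_dvd fun j hj => ?_
  rw [Finset.mem_Icc] at hj
  have h1 : Nat.gcd (a j) (a (n + 1)) = a (Nat.gcd j (n + 1)) := Nat.pow_sub_one_gcd_pow_sub_one _ _ _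
  rw [h1]
  refine Finset.dvd_prod_of_mem a ?_
  rw [Nat.mem_properDivisors]
  refine ⟨Nat.gcd_dvd_right _ _, ?_⟩
  have := Nat.gcd_le_left (n + 1) hj.1
  omega

lemma L_succ (n : ℕ) : L n * a (n + 1) ≤ L (n + 1) * f (n + 1) := by
  have h1 : L (n + 1) = Nat.lcm (a (n + 1)) (L n) := by
    have h2 : Finset.Icc 1 (n + 1) = insert (n + 1) (Finset.Icc 1 n) := by
      ext x
      simp only [Finset.mem_Icc, Finset.mem_insert]
      omega
    unfold L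
    rw [h2, Finset.lcm_insert]
    rfl
  have h2 : Nat.gcd (L n) (a (n + 1)) ≤ f (n + 1) := Nat.le_of_dvd (f_pos _) (gcd_dvd_f n)
  calc L n * a (n + 1) = Nat.gcd (L n) (a (n + 1)) * Nat.lcm (L n) (a (n + 1)) :=
        (Nat.gcd_mul_lcm _ _).symm
    _ = L (n + 1) * Nat.gcd (L n) (a (n + 1)) := by rw [h1, Nat.lcm_comm (L n), mul_comm]
    _ ≤ _ := Nat.mul_le_mul_left _ h2

lemma prod_le (d : ℕ) : ∏ n ∈ Finset.Icc 1 d, a n ≤ L d * ∏ n ∈ Finset.Icc 1 d, f n := by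
  induction d with
  | zero => simp [L]
  | succ n ih =>
    rw [Finset.prod_Icc_succ_top (by omega), Finset.prod_Icc_succ_top (by omega)]
    calc (∏ n ∈ Finset.Icc 1 n, a n) * a (n + 1) ≤
        (L n * ∏ n ∈ Finset.Icc 1 n, f n) * a (n + 1) := Nat.mul_le_mul_right _ ih
      _ = (L n * a (n + 1)) * ∏ n ∈ Finset.Icc 1 n, f n := by ring
      _ ≤ (L (n + 1) * f (n + 1)) * ∏ n ∈ Finset.Icc 1 n, f n :=
          Nat.mul_le_mul_right _ (L_succ n)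
      _ = _ := by ring

/-- the sum of the proper divisors -/
def s (n : ℕ) : ℕ := ∑ e ∈ n.properDivisors, e

lemma f_le (n : ℕ) : f n ≤ 2 ^ s n := by
  unfold f s
  rw [← Finset.prod_pow_eq_pow_sum]
  exact Finset.prod_le_prod' fun e _ => (a_lt e).le

lemma sum_s_le (d : ℕ) : ∑ n ∈ Finset.Icc 1 d, s n ≤
    ∑ k ∈ Finset.Icc 2 d, ∑ e ∈ Finset.Icc 1 (d / k), e := by
  unfold s
  rw [Finset.sum_sigma', Finset.sum_sigma']
  let φ : (Σ _ : ℕ, ℕ) → (Σ _ : ℕ, ℕ) := fun x => ⟨x.1 / x.2, x.2⟩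
  have hφ : Set.InjOn φ ((Finset.Icc 1 d).sigma fun n => n.properDivisors) := by
    rintro ⟨n, e⟩ hx ⟨n', e'⟩ hy h
    simp only [Finset.coe_sigma, Set.mem_sigma_iff, Finset.mem_coe, Nat.mem_properDivisors] at hx hy
    simp only [φ, Sigma.mk.injEq, heq_eq_eq] at h
    obtain ⟨h1, rfl⟩ := h
    have h2 : n = n' := by
      rw [← Nat.div_mul_cancel hx.2.1, ← Nat.div_mul_cancel hy.2.1, h1]
    rw [h2]
  have h1 : ∑ x ∈ (Finset.Icc 1 d).sigma (fun n => n.properDivisors), x.2 =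
      ∑ x ∈ ((Finset.Icc 1 d).sigma (fun n => n.properDivisors)).image φ, x.2 := by
    rw [Finset.sum_image hφ]
  rw [h1]
  refine Finset.sum_le_sum_of_subset ?_
  intro y hy
  rw [Finset.mem_image] at hy
  obtain ⟨⟨n, e⟩, hx, rfl⟩ := hy
  rw [Finset.mem_sigma, Nat.mem_properDivisors, Finset.mem_Icc] at hx
  simp only at hx
  obtain ⟨⟨hn1, hnd⟩, ⟨k, rfl⟩, hlt⟩ := hx
  have he : 0 < e := Nat.pos_of_ne_zero (by rintro rfl; omega)
  rw [Finset.mem_sigma, Finset.mem_Icc, Finset.mem_Icc]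
  simp only [φ]
  rw [Nat.mul_div_cancel_left _ he]
  have hk : 2 ≤ k := by
    by_contra h
    have : k = 0 ∨ k = 1 := by omega
    rcases this with rfl | rfl <;> omega
  refine ⟨⟨hk, ?_⟩, he, ?_⟩
  · calc k = 1 * k := (one_mul k).symm
      _ ≤ e * k := Nat.mul_le_mul_right _ he
      _ ≤ d := hnd
  · rw [Nat.le_div_iff_mul_le (by omega)]
    exact hnd

lemma gauss (m : ℕ) : ((∑ e ∈ Finset.Icc 1 m, e : ℕ) : ℚ) = m * (m + 1) / 2 := by
  induction m with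
  | zero => simp
  | succ m ih =>
    rw [Finset.sum_Icc_succ_top (by omega)]
    push_cast
    rw [← Nat.cast_sum, ih]
    ring

lemma gauss' (m : ℕ) : ((∑ n ∈ Finset.Icc 1 m, (n - 1) : ℕ) : ℚ) = m * (m - 1) / 2 := by
  induction m with
  | zero => simp
  | succ m ih =>
    rw [Finset.sum_Icc_succ_top (by omega), Nat.cast_add, ih, Nat.add_sub_cancel]
    push_cast
    ring

lemma sum_sq (d : ℕ) (hd : 2 ≤ d) :
    ∑ k ∈ Finset.Icc 2 d, (1 : ℚ) / (k : ℚ) ^ 2 ≤ 3 / 4 - 1 / d := by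
  induction d, hd using Nat.le_induction with
  | base => norm_num
  | succ n hn ih =>
    rw [Finset.sum_Icc_succ_top (by omega)]
    have h0 : (0 : ℚ) < n := by exact_mod_cast (by omega : 0 < n)
    have h1 : (1 : ℚ) / ((n + 1 : ℕ) : ℚ) ^ 2 ≤ 1 / n - 1 / ((n + 1 : ℕ) : ℚ) := by
      push_cast
      rw [div_sub_div _ _ (by positivity) (by positivity), div_le_div_iff₀ (by positivity)
        (by positivity)]
      nlinarith
    linarith

lemma sum_inv (d : ℕ) (hd : 16 ≤ d) :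
    ∑ k ∈ Finset.Icc 2 d, (1 : ℚ) / (k : ℚ) ≤ d / 16 + 7 / 5 := by
  induction d, hd using Nat.le_induction with
  | base => norm_num [Finset.sum_Icc_succ_top]
  | succ n hn ih =>
    rw [Finset.sum_Icc_succ_top (by omega)]
    have h0 : (16 : ℚ) ≤ n := by exact_mod_cast hn
    have h1 : (1 : ℚ) / ((n + 1 : ℕ) : ℚ) ≤ 1 / 16 := by
      push_cast
      apply one_div_le_one_div_of_le (by norm_num)
      linarith
    push_cast at h1 ⊢
    linarith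

lemma sum_s_le' (d : ℕ) (hd : 16 ≤ d) :
    ((∑ n ∈ Finset.Icc 1 d, s n : ℕ) : ℚ) ≤ 13 / 32 * (d : ℚ) ^ 2 + d / 5 := by
  have h1 : ((∑ n ∈ Finset.Icc 1 d, s n : ℕ) : ℚ) ≤
      ((∑ k ∈ Finset.Icc 2 d, ∑ e ∈ Finset.Icc 1 (d / k), e : ℕ) : ℚ) := by
    exact_mod_cast sum_s_le d
  refine h1.trans ?_
  have hd0 : (0 : ℚ) < d := by exact_mod_cast (by omega : 0 < d)
  have h2 : ((∑ k ∈ Finset.Icc 2 d, ∑ e ∈ Finset.Icc 1 (d / k), e : ℕ) : ℚ) ≤
      ∑ k ∈ Finset.Icc 2 d, ((d : ℚ) ^ 2 / 2 * (1 / (k : ℚ) ^ 2) + (d : ℚ) / 2 * (1 / (k : ℚ))) := by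
    rw [Nat.cast_sum]
    refine Finset.sum_le_sum fun k hk => ?_
    rw [gauss]
    have h3 : ((d / k : ℕ) : ℚ) ≤ (d : ℚ) / k := Nat.cast_div_le
    have h4 : (0 : ℚ) ≤ ((d / k : ℕ) : ℚ) := by positivity
    have h5 : ((d / k : ℕ) : ℚ) * (((d / k : ℕ) : ℚ) + 1) ≤ (d : ℚ) / k * ((d : ℚ) / k + 1) := by
      apply mul_le_mul h3 (by linarith) (by positivity) (by positivity)
    calc _ ≤ ((d : ℚ) / k * ((d : ℚ) / k + 1)) / 2 := by linarith
      _ = _ := by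
        have hk0 : (k : ℚ) ≠ 0 := by
          have := (Finset.mem_Icc.1 hk).1
          positivity
        field_simp
  refine h2.trans ?_
  rw [Finset.sum_add_distrib, ← Finset.mul_sum, ← Finset.mul_sum]
  have h6 := sum_sq d (by omega)
  have h7 := sum_inv d hd
  have h8 : (d : ℚ) ^ 2 / 2 * ∑ k ∈ Finset.Icc 2 d, (1 : ℚ) / (k : ℚ) ^ 2 ≤
      (d : ℚ) ^ 2 / 2 * (3 / 4 - 1 / d) := mul_le_mul_of_nonneg_left h6 (by positivity)
  have h9 : (d : ℚ) / 2 * ∑ k ∈ Finset.Icc 2 d, (1 : ℚ) / (k : ℚ) ≤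
      (d : ℚ) / 2 * (d / 16 + 7 / 5) := mul_le_mul_of_nonneg_left h7 (by positivity)
  have h10 : (d : ℚ) ^ 2 / 2 * (3 / 4 - 1 / d) = 3 / 8 * (d : ℚ) ^ 2 - d / 2 := by
    field_simp
    ring
  rw [h10] at h8
  nlinarith

/-- A common multiple of `2 ^ 1 - 1, …, 2 ^ d - 1` is at least `2 ^ (d ^ 2 / 16)`. -/
theorem bound (d : ℕ) (hd : 32 ≤ d) (e : ℕ) (he : 16 * e ≤ d ^ 2) (M : ℕ) (hM : 0 < M)
    (h : ∀ j, 1 ≤ j → j ≤ d → 2 ^ j - 1 ∣ M) : 2 ^ e ≤ M := by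
  have h1 : L d ∣ M := Finset.lcm_dvd fun j hj => by
    rw [Finset.mem_Icc] at hj
    exact h j hj.1 hj.2
  refine le_trans ?_ (Nat.le_of_dvd hM h1)
  have h2 := prod_le d
  have h3 : 2 ^ (∑ n ∈ Finset.Icc 1 d, (n - 1)) ≤ ∏ n ∈ Finset.Icc 1 d, a n := by
    rw [← Finset.prod_pow_eq_pow_sum]
    exact Finset.prod_le_prod' fun n hn => le_a (Finset.mem_Icc.1 hn).1
  have h4 : ∏ n ∈ Finset.Icc 1 d, f n ≤ 2 ^ (∑ n ∈ Finset.Icc 1 d, s n) := by
    rw [← Finset.prod_pow_eq_pow_sum]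
    exact Finset.prod_le_prod' fun n _ => f_le n
  have h5 : 2 ^ (∑ n ∈ Finset.Icc 1 d, (n - 1)) ≤ L d * 2 ^ (∑ n ∈ Finset.Icc 1 d, s n) :=
    h3.trans (h2.trans (Nat.mul_le_mul_left _ h4))
  have h6 : e + ∑ n ∈ Finset.Icc 1 d, s n ≤ ∑ n ∈ Finset.Icc 1 d, (n - 1) := by
    have h7 := sum_s_le' d (by omega)
    have h8 := gauss' d
    have h9 : (32 : ℚ) ≤ d := by exact_mod_cast hd
    have h10 : (16 : ℚ) * e ≤ (d : ℚ) ^ 2 := by exact_mod_cast he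
    have h11 : ((e + ∑ n ∈ Finset.Icc 1 d, s n : ℕ) : ℚ) ≤
        ((∑ n ∈ Finset.Icc 1 d, (n - 1) : ℕ) : ℚ) := by
      rw [h8, Nat.cast_add]
      nlinarith
    exact_mod_cast h11
  have h12 : 2 ^ e * 2 ^ (∑ n ∈ Finset.Icc 1 d, s n) ≤ L d * 2 ^ (∑ n ∈ Finset.Icc 1 d, s n) := by
    rw [← pow_add]
    exact (Nat.pow_le_pow_right (by norm_num) h6).trans h5
  exact Nat.le_of_mul_le_mul_right h12 (by positivity)

end Pool.Agent.H87R2.LcmBound
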