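import Mathlib

set_option autoImplicit false

/-!
# A finite `p`-group in which the `p`-power map is an anisotropic form

Strictly upper triangular matrices over the field with `p ^ p` elements whose superdiagonal is
`(θ, θ ^ p, θ ^ (p ^ 2), ...)`.
-/

namespace Pool.Agent.H87R2.NielsenA

noncomputable section

variable (p : ℕ) [Fact p.Prime]

/-- the field with `p ^ p` elements -/
abbrev FF : Type := GaloisField p p

/-- square matrices of size `p + 1` over it -/
abbrev Mat : Type := Matrix (Fin (p + 1)) (Fin (p + 1)) (FF p)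

/-- matrices supported on or above the `d`-th superdiagonal -/
def D (d : ℕ) : AddSubgroup (Mat p) where
  carrier := {A | ∀ i j : Fin (p + 1), (j : ℕ) < i + d → A i j = 0}
  zero_mem' := fun i j _ => rfl
  add_mem' := fun {A B} hA hB i j h => by
    show A i j + B i j = 0
    rw [hA i j h, hB i j h, add_zero]
  neg_mem' := fun {A} hA i j h => by
    show -A i j = 0
    rw [hA i j h, neg_zero]

variable {p}

lemma D_mono {d e : ℕ} (h : d ≤ e) : D p e ≤ D p d := fun _ hA i j hij => hA i j (by omega)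

lemma D_mul {d e : ℕ} {A B : Mat p} (hA : A ∈ D p d) (hB : B ∈ D p e) : A * B ∈ D p (d + e) := by
  intro i j hij
  rw [Matrix.mul_apply]
  refine Finset.sum_eq_zero fun k _ => ?_
  by_cases hk : (k : ℕ) < i + d
  · rw [hA i k hk, zero_mul]
  · rw [hB k j (by omega), mul_zero]

lemma D_top {d : ℕ} (hd : p + 1 ≤ d) {A : Mat p} (hA : A ∈ D p d) : A = 0 := by
  ext i j
  exact hA i j (by have := j.isLt; omega)

/-- the basic matrix -/
def T (θ : FF p) : Mat p :=
  Matrix.of fun i j => if (j : ℕ) = i + 1 then θ ^ (p ^ (i : ℕ)) else 0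

lemma T_apply (θ : FF p) (i j : Fin (p + 1)) :
    T θ i j = if (j : ℕ) = i + 1 then θ ^ (p ^ (i : ℕ)) else 0 := rfl

lemma T_mem (θ : FF p) : T θ ∈ D p 1 := by
  intro i j hij
  rw [T_apply, if_neg (by omega)]

lemma T_add (θ η : FF p) : T (θ + η) = T θ + T η := by
  ext i j
  rw [Matrix.add_apply, T_apply, T_apply, T_apply]
  split_ifs
  · rw [add_pow_char_pow]
  · rw [add_zero]

lemma T_zero : T (0 : FF p) = 0 := by
  have h := T_add (0 : FF p) 0
  rw [add_zero] at h
  exact left_eq_add.mp h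

lemma T_pow (θ : FF p) (k : ℕ) (i j : Fin (p + 1)) :
    (T θ ^ k) i j = if (j : ℕ) = i + k then ∏ l ∈ Finset.range k, θ ^ (p ^ ((i : ℕ) + l)) else 0 := by
  induction k generalizing j with
  | zero =>
    rw [pow_zero, Matrix.one_apply]
    by_cases h : i = j
    · subst h; simp
    · rw [if_neg h, if_neg]
      intro h2
      apply h
      ext
      omega
  | succ k ih =>
    rw [pow_succ, Matrix.mul_apply]
    by_cases h : (j : ℕ) = i + (k + 1)
    · have hk : (i : ℕ) + k < p + 1 := by have := j.isLt; omega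
      rw [Finset.sum_eq_single (⟨i + k, hk⟩ : Fin (p + 1))]
      · rw [ih, if_pos rfl, T_apply, if_pos (by simp only; omega), if_pos h, Finset.prod_range_succ]
      · intro b _ hb
        rw [ih, if_neg, zero_mul]
        intro h2
        apply hb
        ext
        exact h2
      · intro h2
        exact absurd (Finset.mem_univ _) h2
    · rw [if_neg h]
      refine Finset.sum_eq_zero fun b _ => ?_
      rw [ih, T_apply]
      by_cases h1 : (b : ℕ) = i + k
      · rw [if_neg (by omega : ¬ (j : ℕ) = b + 1), mul_zero]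
      · rw [if_neg h1, zero_mul]

/-- the elementary matrix in the upper right corner -/
def E (c : FF p) : Mat p := Matrix.single 0 (Fin.last p) c

lemma E_mem (c : FF p) : E c ∈ D p p := by
  intro i j hij
  rw [E, Matrix.single_apply, if_neg]
  rintro ⟨rfl, rfl⟩
  simp at hij

lemma T_pow_p (θ : FF p) : T θ ^ p = E (algebraMap (ZMod p) (FF p) (Algebra.norm (ZMod p) θ)) := by
  ext i j
  rw [T_pow, E, Matrix.single_apply]
  by_cases h : (j : ℕ) = i + p
  · have hi : (i : ℕ) = 0 := by have := j.isLt; omega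
    have hi' : i = 0 := Fin.ext hi
    have hj' : j = Fin.last p := Fin.ext (by simp; omega)
    rw [if_pos h, if_pos ⟨hi'.symm, hj'.symm⟩, FiniteField.algebraMap_norm_eq_prod_pow,
      GaloisField.finrank p (Fact.out : p.Prime).ne_zero, Nat.card_zmod]
    refine Finset.prod_congr rfl fun l _ => ?_
    rw [hi, zero_add]
  · rw [if_neg h, if_neg]
    rintro ⟨rfl, rfl⟩
    simp at h

lemma key_pow {θ : FF p} {R : Mat p} (hR : R ∈ D p 2) (k : ℕ) :
    (T θ + R) ^ k - T θ ^ k ∈ D p (k + 1) ∧ T θ ^ k ∈ D p k := by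
  induction k with
  | zero =>
    refine ⟨?_, ?_⟩
    · rw [pow_zero, pow_zero, sub_self]; exact (D p _).zero_mem
    · intro i j h
      rw [pow_zero, Matrix.one_apply, if_neg]
      rintro rfl
      omega
  | succ k ih =>
    obtain ⟨h1, h2⟩ := ih
    refine ⟨?_, ?_⟩
    · have h3 : (T θ + R) ^ (k + 1) - T θ ^ (k + 1) =
          T θ ^ k * R + ((T θ + R) ^ k - T θ ^ k) * (T θ + R) := by
        rw [pow_succ, pow_succ]
        noncomm_ring
      rw [h3]
      refine (D p _).add_mem (D_mul h2 hR : _ ∈ D p (k + 2)) (D_mul h1 ?_)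
      exact (D p _).add_mem (T_mem θ) (D_mono (by norm_num) hR)
    · rw [pow_succ]
      exact D_mul h2 (T_mem θ)

/-- `A` is a unitriangular matrix with superdiagonal `(θ, θ ^ p, ...)` -/
def Sup (θ : FF p) (A : Mat p) : Prop := A - 1 - T θ ∈ D p 2

lemma Sup.pow_p {θ : FF p} {A : Mat p} (h : Sup θ A) :
    A ^ p = 1 + E (algebraMap (ZMod p) (FF p) (Algebra.norm (ZMod p) θ)) := by
  have h1 : A = 1 + (T θ + (A - 1 - T θ)) := by abel
  conv_lhs => rw [h1]
  rw [add_pow_char_of_commute p (Commute.one_left _), one_pow]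
  congr 1
  rw [← T_pow_p]
  exact sub_eq_zero.1 (D_top le_rfl (key_pow h p).1)

lemma Sup.one : Sup (0 : FF p) (1 : Mat p) := by
  show (1 : Mat p) - 1 - T 0 ∈ D p 2
  rw [T_zero, sub_self, sub_zero]
  exact (D p 2).zero_mem

lemma Sup.mem {θ : FF p} {A : Mat p} (h : Sup θ A) : A - 1 ∈ D p 1 := by
  have h1 : A - 1 = (A - 1 - T θ) + T θ := by abel
  rw [h1]
  exact (D p 1).add_mem (D_mono (by norm_num) h) (T_mem θ)

lemma Sup.mul {θ η : FF p} {A B : Mat p} (hA : Sup θ A) (hB : Sup η B) : Sup (θ + η) (A * B) := by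
  have h1 : A * B - 1 - T (θ + η) = (A - 1) * (B - 1) + ((A - 1 - T θ) + (B - 1 - T η)) := by
    rw [T_add]
    noncomm_ring
  rw [Sup, h1]
  exact (D p 2).add_mem (D_mul hA.mem hB.mem) ((D p 2).add_mem hA hB)

lemma Sup.unique {θ η : FF p} {A : Mat p} (hA : Sup θ A) (hB : Sup η A) : θ = η := by
  have h1 : T θ - T η ∈ D p 2 := by
    have : T θ - T η = (A - 1 - T η) - (A - 1 - T θ) := by abel
    rw [this]
    exact (D p 2).sub_mem hB hA
  have hp : 1 < p + 1 := by have := (Fact.out : p.Prime).pos; omega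
  have h2 := h1 ⟨0, by omega⟩ ⟨1, hp⟩ (by simp)
  rw [Matrix.sub_apply, T_apply, T_apply] at h2
  simp only [zero_add, if_true, pow_zero, pow_one] at h2
  exact sub_eq_zero.1 h2

/-- the monoid of all such matrices -/
def GM (p : ℕ) [Fact p.Prime] : Submonoid (Mat p) where
  carrier := {A | ∃ θ, Sup θ A}
  one_mem' := ⟨0, Sup.one⟩
  mul_mem' := by
    rintro A B ⟨θ, hA⟩ ⟨η, hB⟩
    exact ⟨θ + η, hA.mul hB⟩

/-- the group -/
abbrev GG (p : ℕ) [Fact p.Prime] : Type := (↥(GM p))ˣ

instance : Finite (GG p) := by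
  classical
  have : Finite (FF p) := inferInstance
  have : Finite (Mat p) := inferInstanceAs (Finite (Fin (p + 1) → Fin (p + 1) → FF p))
  exact inferInstance

/-- the parameter -/
noncomputable def thM (A : ↥(GM p)) : FF p := A.2.choose

lemma thM_spec (A : ↥(GM p)) : Sup (thM A) (A : Mat p) := A.2.choose_spec

/-- the parameter, a homomorphism -/
noncomputable def th : GG p →* Multiplicative (FF p) where
  toFun := fun g => Multiplicative.ofAdd (thM (g : ↥(GM p)))
  map_one' := by
    rw [← ofAdd_zero]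
    congr 1
    exact (thM_spec _).unique Sup.one
  map_mul' := fun g h => by
    rw [← ofAdd_add]
    congr 1
    exact (thM_spec _).unique ((thM_spec _).mul (thM_spec _))

lemma Sup_T (θ : FF p) : Sup θ (1 + T θ) := by
  show 1 + T θ - 1 - T θ ∈ D p 2
  rw [add_sub_cancel_left, sub_self]
  exact (D p 2).zero_mem

lemma Sup_E (c : FF p) (hp : 2 ≤ p) : Sup 0 (1 + E c) := by
  show 1 + E c - 1 - T 0 ∈ D p 2
  rw [add_sub_cancel_left, T_zero, sub_zero]
  exact D_mono hp (E_mem c)

lemma E_mul_E (c d : FF p) : E c * E d = 0 :=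
  D_top (by have := (Fact.out : p.Prime).two_le; omega) (D_mul (E_mem c) (E_mem d))

lemma E_pow (c : FF p) {n : ℕ} (hn : 2 ≤ n) : E c ^ n = 0 := by
  obtain ⟨k, rfl⟩ : ∃ k, n = k + 2 := ⟨n - 2, by omega⟩
  rw [pow_add, pow_two, E_mul_E, mul_zero]

lemma E_add (c d : FF p) : E (c + d) = E c + E d := by
  rw [E, E, E, Matrix.single_add]

lemma E_zero : E (0 : FF p) = 0 := by
  rw [E, Matrix.single_zero]

lemma E_mul (c d : FF p) : (1 + E c) * (1 + E d) = 1 + E (c + d) := by
  rw [E_add]
  have h := E_mul_E c d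
  have h2 : (1 + E c) * (1 + E d) = 1 + (E c + E d) + E c * E d := by noncomm_ring
  rw [h2, h, add_zero]

/-- the central elements, in the monoid -/
def zM (c : ZMod p) : ↥(GM p) :=
  ⟨1 + E (algebraMap (ZMod p) (FF p) c), 0, Sup_E _ (Fact.out : p.Prime).two_le⟩

/-- the central elements -/
def zG : Multiplicative (ZMod p) →* GG p where
  toFun := fun c => ⟨zM c.toAdd, zM (-c.toAdd), by
    apply Subtype.ext
    show (1 + E _) * (1 + E _) = 1
    rw [E_mul, ← map_add, add_neg_cancel, map_zero, E_zero, add_zero], by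
    apply Subtype.ext
    show (1 + E _) * (1 + E _) = 1
    rw [E_mul, ← map_add, neg_add_cancel, map_zero, E_zero, add_zero]⟩
  map_one' := by
    apply Units.ext
    apply Subtype.ext
    show 1 + E (algebraMap (ZMod p) (FF p) 0) = 1
    rw [map_zero, E_zero, add_zero]
  map_mul' := fun c d => by
    apply Units.ext
    apply Subtype.ext
    show 1 + E (algebraMap (ZMod p) (FF p) (c.toAdd + d.toAdd)) =
      (1 + E (algebraMap (ZMod p) (FF p) c.toAdd)) * (1 + E (algebraMap (ZMod p) (FF p) d.toAdd))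
    rw [E_mul, map_add]

lemma zG_injective : Function.Injective (zG (p := p)) := by
  intro c d h
  have h1 : (1 : Mat p) + E (algebraMap (ZMod p) (FF p) c.toAdd) =
      1 + E (algebraMap (ZMod p) (FF p) d.toAdd) :=
    congrArg (fun g : GG p => ((g : ↥(GM p)) : Mat p)) h
  have h3 : E (algebraMap (ZMod p) (FF p) c.toAdd) = E (algebraMap (ZMod p) (FF p) d.toAdd) :=
    add_left_cancel h1
  have h2 := congrFun (congrFun h3 0) (Fin.last p)
  rw [E, E, Matrix.single_apply_same, Matrix.single_apply_same] at h2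
  exact Multiplicative.toAdd.injective ((algebraMap (ZMod p) (FF p)).injective h2)

lemma th_zG (c : Multiplicative (ZMod p)) : th (zG c) = 1 := by
  show Multiplicative.ofAdd (thM (zM c.toAdd)) = Multiplicative.ofAdd 0
  congr 1
  exact (thM_spec _).unique (Sup_E _ (Fact.out : p.Prime).two_le)

lemma zG_central (c : Multiplicative (ZMod p)) (g : GG p) : zG c * g = g * zG c := by
  apply Units.ext
  apply Subtype.ext
  show (1 + E (algebraMap (ZMod p) (FF p) c.toAdd)) * ((g : ↥(GM p)) : Mat p) =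
    ((g : ↥(GM p)) : Mat p) * (1 + E (algebraMap (ZMod p) (FF p) c.toAdd))
  set A : Mat p := ((g : ↥(GM p)) : Mat p) with hA
  set c' := algebraMap (ZMod p) (FF p) c.toAdd
  have h1 : A - 1 ∈ D p 1 := (thM_spec (g : ↥(GM p))).mem
  have h2 : E c' * (A - 1) = 0 := D_top le_rfl (D_mul (E_mem c') h1)
  have h3 : (A - 1) * E c' = 0 := D_top (by omega) (D_mul h1 (E_mem c'))
  have h4 : E c' * A = E c' := by
    rw [mul_sub, mul_one, sub_eq_zero] at h2
    exact h2
  have h5 : A * E c' = E c' := by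
    rw [sub_mul, one_mul, sub_eq_zero] at h3
    exact h3
  rw [add_mul, mul_add, one_mul, mul_one, h4, h5]

/-- the `p`-th power of `g` is central, given by the norm of the parameter -/
lemma pow_p (g : GG p) :
    g ^ p = zG (Multiplicative.ofAdd (Algebra.norm (ZMod p) (Multiplicative.toAdd (th g)))) := by
  apply Units.ext
  apply Subtype.ext
  show ((g ^ p : GG p) : ↥(GM p)).1 = 1 + E (algebraMap (ZMod p) (FF p) (Algebra.norm (ZMod p) _))
  rw [Units.val_pow_eq_pow_val]
  show ((g : ↥(GM p)) : Mat p) ^ p = _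
  exact (thM_spec (g : ↥(GM p))).pow_p

lemma norm_ne_zero {θ : FF p} (h : θ ≠ 0) : Algebra.norm (ZMod p) θ ≠ 0 := by
  rwa [Ne, Algebra.norm_eq_zero_iff]

lemma T_pow_sq (θ : FF p) : ((⟨1 + T θ, θ, Sup_T θ⟩ : ↥(GM p))) ^ (p * p) = 1 := by
  apply Subtype.ext
  show (1 + T θ) ^ (p * p) = 1
  rw [pow_mul, (Sup_T θ).pow_p, add_pow_char_of_commute p (Commute.one_left _), one_pow]
  rw [E_pow _ (Fact.out : p.Prime).two_le, add_zero]

/-- an element of the group with a given parameter -/
noncomputable def gT (θ : FF p) : GG p :=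
  Units.ofPowEqOne (⟨1 + T θ, θ, Sup_T θ⟩ : ↥(GM p)) (p * p) (T_pow_sq θ)
    (Nat.mul_ne_zero (Fact.out : p.Prime).ne_zero (Fact.out : p.Prime).ne_zero)

lemma th_gT (θ : FF p) : th (gT θ) = Multiplicative.ofAdd θ := by
  show Multiplicative.ofAdd (thM ((gT θ : GG p) : ↥(GM p))) = Multiplicative.ofAdd θ
  congr 1
  exact (thM_spec _).unique (Sup_T θ)

end

end Pool.Agent.H87R2.NielsenA
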