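import Mathlib
import Pool.Agent.H87R2.NielsenA

set_option autoImplicit false

/-!
# Finite groups generated by `n` elements in which all primitive elements have order dividing `p ^ 2`
-/

namespace Pool.Agent.H87R2.NielsenB

open Pool.Agent.H87R2.NielsenA

/-! ### affine permutations -/

section Aff

variable {G : Type} [Group G] {q : ℕ}

/-- the permutation `(h, a) ↦ (g h, a + f (g h))` -/
def sg (f : G → ZMod q) (g : G) : Equiv.Perm (G × ZMod q) where
  toFun := fun x => (g * x.1, x.2 + f (g * x.1))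
  invFun := fun x => (g⁻¹ * x.1, x.2 - f x.1)
  left_inv := fun x => by
    refine Prod.ext ?_ ?_
    · show g⁻¹ * (g * x.1) = x.1
      rw [inv_mul_cancel_left]
    · show x.2 + f (g * x.1) - f (g * x.1) = x.2
      ring
  right_inv := fun x => by
    refine Prod.ext ?_ ?_
    · show g * (g⁻¹ * x.1) = x.1
      rw [mul_inv_cancel_left]
    · show x.2 - f x.1 + f (g * (g⁻¹ * x.1)) = x.2
      rw [mul_inv_cancel_left]
      ring

lemma sg_apply (f : G → ZMod q) (g : G) (x : G × ZMod q) :
    sg f g x = (g * x.1, x.2 + f (g * x.1)) := rfl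

lemma sg_mul (f f' : G → ZMod q) (g g' : G) :
    sg f g * sg f' g' = sg (fun h => f h + f' (g⁻¹ * h)) (g * g') := by
  ext x
  · show g * (g' * x.1) = g * g' * x.1
    rw [mul_assoc]
  · show x.2 + f' (g' * x.1) + f (g * (g' * x.1)) =
      x.2 + (f (g * g' * x.1) + f' (g⁻¹ * (g * g' * x.1)))
    rw [mul_assoc g g' x.1, inv_mul_cancel_left]
    ring

lemma sg_one : sg (fun _ => (0 : ZMod q)) (1 : G) = 1 := by
  ext x
  · show 1 * x.1 = x.1
    rw [one_mul]
  · show x.2 + 0 = x.2
    rw [add_zero]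

lemma sg_inv (f : G → ZMod q) (g : G) : (sg f g)⁻¹ = sg (fun h => -f (g * h)) g⁻¹ := by
  rw [inv_eq_iff_mul_eq_one, sg_mul, mul_inv_cancel, ← sg_one]
  congr 1
  funext h
  rw [mul_inv_cancel_left]
  ring

lemma sg_injective {f f' : G → ZMod q} {g g' : G} (h : sg f g = sg f' g') : f = f' ∧ g = g' := by
  have h1 : g = g' := by
    have := congrArg Prod.fst (Equiv.congr_fun h (1, 0))
    simpa [sg_apply] using this
  refine ⟨?_, h1⟩
  subst h1
  funext x
  have := congrArg Prod.snd (Equiv.congr_fun h (g⁻¹ * x, 0))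
  simpa [sg_apply] using this

lemma sg_pow_one (f : G → ZMod q) (k : ℕ) : (sg f 1) ^ k = sg (fun h => (k : ZMod q) * f h) 1 := by
  induction k with
  | zero =>
    rw [pow_zero, ← sg_one]
    congr 1
    funext h
    simp
  | succ k ih =>
    rw [pow_succ, ih, sg_mul, one_mul]
    congr 1
    funext h
    rw [inv_one, one_mul]
    push_cast
    ring

lemma sg_pow (f : G → ZMod q) (g : G) (k : ℕ) :
    (sg f g) ^ k = sg (fun h => ∑ j ∈ Finset.range k, f ((g ^ j)⁻¹ * h)) (g ^ k) := by
  induction k with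
  | zero =>
    rw [pow_zero, pow_zero, ← sg_one]
    congr 1
  | succ k ih =>
    rw [pow_succ, ih, sg_mul, ← pow_succ]
    congr 1
    funext h
    rw [Finset.sum_range_succ]

variable {p : ℕ} [Fact p.Prime] (z : Multiplicative (ZMod p) →* G)

/-- functions whose sums over the cosets of the central subgroup vanish -/
def MM (q : ℕ) : AddSubgroup (G → ZMod q) where
  carrier := {f | ∀ g, ∑ c : ZMod p, f (g * z (Multiplicative.ofAdd c)) = 0}
  zero_mem' := fun g => by simp
  add_mem' := fun {f f'} h h' g => by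
    simp only [Pi.add_apply]
    rw [Finset.sum_add_distrib, h g, h' g, add_zero]
  neg_mem' := fun {f} h g => by
    simp only [Pi.neg_apply]
    rw [Finset.sum_neg_distrib, h g, neg_zero]

lemma MM_trans {f : G → ZMod q} (hf : f ∈ MM z q) (g : G) : (fun h => f (g * h)) ∈ MM z q := by
  intro h
  have := hf (g * h)
  simpa only [mul_assoc] using this

lemma sum_range_smul (F : ZMod p → ZMod q) (c : ZMod p) (hc : c ≠ 0) :
    ∑ j ∈ Finset.range p, F (j * c) = ∑ d : ZMod p, F d := by
  have h1 : ∑ j ∈ Finset.range p, F (j * c) = ∑ d : ZMod p, F (d * c) := by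
    refine Finset.sum_bij' (i := fun j _ => (j : ZMod p)) (j := fun d _ => d.val) ?_ ?_ ?_ ?_ ?_
    · intro a _
      exact Finset.mem_univ _
    · intro a _
      rw [Finset.mem_range]
      exact ZMod.val_lt a
    · intro a ha
      rw [Finset.mem_range] at ha
      exact ZMod.val_cast_of_lt ha
    · intro a _
      simp
    · intro a _
      rfl
  rw [h1]
  exact Equiv.sum_comp (Equiv.mulRight₀ c hc) F

/-- the order of an affine permutation -/
lemma sg_order {f : G → ZMod q} (hf : f ∈ MM z q) {g : G}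
    (hz : ∀ c (g : G), z c * g = g * z c) {c : ZMod p} (hc : c ≠ 0)
    (hg : g ^ p = z (Multiplicative.ofAdd c)) : (sg f g) ^ (p ^ 2) = 1 := by
  rw [pow_two, pow_mul, sg_pow f g p, hg, sg_pow]
  set f' : G → ZMod q := fun h => ∑ j ∈ Finset.range p, f ((g ^ j)⁻¹ * h) with hf'
  have hf'M : f' ∈ MM z q := by
    have : f' = ∑ j ∈ Finset.range p, fun h => f ((g ^ j)⁻¹ * h) := by
      funext h
      rw [Finset.sum_apply]
    rw [this]
    exact (MM z q).sum_mem fun j _ => MM_trans z hf _
  rw [← map_pow, ← ofAdd_nsmul]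
  have h0 : p • c = 0 := by simp
  rw [h0, ofAdd_zero, map_one, ← sg_one]
  congr 1
  funext h
  have h1 : ∀ j ∈ Finset.range p, f' ((z (Multiplicative.ofAdd c) ^ j)⁻¹ * h) =
      (fun d : ZMod p => f' (h * z (Multiplicative.ofAdd d))) (j * (-c)) := by
    intro j _
    show _ = f' (h * z (Multiplicative.ofAdd (j * (-c))))
    rw [← hz, ← map_pow, ← map_inv, ← ofAdd_nsmul, ← ofAdd_neg]
    congr 4
    rw [nsmul_eq_mul]
    ring
  rw [Finset.sum_congr rfl h1, sum_range_smul (fun d : ZMod p => f' (h * z (Multiplicative.ofAdd d)))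
    (-c) (neg_ne_zero.2 hc)]
  exact hf'M h

end Aff

/-! ### the homomorphism -/

section Hom

variable (p : ℕ) [Fact p.Prime] (n : ℕ) (q : ℕ) (v : Fin n → FF p)

/-- the homomorphism to the `p`-group -/
noncomputable def phi : FreeGroup (Fin n) →* GG p := FreeGroup.lift fun i => gT (v i)

/-- the value of the parameter -/
noncomputable def vv : FreeGroup (Fin n) →* Multiplicative (FF p) :=
  FreeGroup.lift fun i => Multiplicative.ofAdd (v i)

lemma th_phi (x : FreeGroup (Fin n)) : th (phi p n v x) = vv p n v x := by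
  have : th.comp (phi p n v) = vv p n v := by
    ext i
    simp [phi, vv, th_gT]
  exact DFunLike.congr_fun this x

/-- exponent sums modulo `p` -/
def ee (i : Fin n) : FreeGroup (Fin n) →* Multiplicative (ZMod p) :=
  FreeGroup.lift fun j => Multiplicative.ofAdd (if j = i then 1 else 0)

lemma vv_eq (x : FreeGroup (Fin n)) :
    (vv p n v x).toAdd = ∑ i, (ee p n i x).toAdd • v i := by
  induction x using FreeGroup.induction_on with
  | C1 => simp
  | of i => simp [vv, ee, ite_smul]
  | inv_of i _ => simp [vv, ee, ite_smul]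
  | mul x y hx hy => simp [map_mul, hx, hy, add_smul, Finset.sum_add_distrib]

lemma hom_eq (χ : FreeGroup (Fin n) →* Multiplicative (ZMod p)) (x : FreeGroup (Fin n)) :
    (χ x).toAdd = ∑ i, (ee p n i x).toAdd * (χ (FreeGroup.of i)).toAdd := by
  induction x using FreeGroup.induction_on with
  | C1 => simp
  | of i => simp [ee, ite_mul]
  | inv_of i _ => simp [ee, ite_mul]
  | mul x y hx hy => simp [map_mul, hx, hy, add_mul, Finset.sum_add_distrib]

lemma vv_primitive (hv : LinearIndependent (ZMod p) v) (α : MulAut (FreeGroup (Fin n)))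
    (i : Fin n) : (vv p n v (α (FreeGroup.of i))).toAdd ≠ 0 := by
  intro h
  rw [vv_eq] at h
  have h1 := Fintype.linearIndependent_iff.1 hv _ h
  have h2 := hom_eq p n ((ee p n i).comp (α⁻¹ : MulAut (FreeGroup (Fin n))).toMonoidHom)
    (α (FreeGroup.of i))
  rw [Finset.sum_eq_zero (fun j _ => by rw [h1 j, zero_mul])] at h2
  have h3 : (α⁻¹ : MulAut (FreeGroup (Fin n))).toMonoidHom (α (FreeGroup.of i)) =
      FreeGroup.of i := by
    show (α⁻¹ * α) (FreeGroup.of i) = FreeGroup.of i
    rw [inv_mul_cancel]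
    rfl
  rw [MonoidHom.comp_apply, h3] at h2
  simp [ee] at h2

/-- the distinguished function -/
noncomputable def mm (c : ZMod p) : GG p → ZMod q := fun g =>
  open Classical in (if g = 1 then 1 else 0) - (if g * zG (Multiplicative.ofAdd c) = 1 then 1 else 0)

lemma mm_mem (c : ZMod p) : mm p q c ∈ MM zG q := by
  intro g
  classical
  unfold mm
  rw [Finset.sum_sub_distrib, sub_eq_zero]
  rw [← Equiv.sum_comp (Equiv.addRight c)]
  refine Finset.sum_congr rfl fun d _ => ?_
  rw [Equiv.coe_addRight, ofAdd_add, map_mul, mul_assoc]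

/-- the homomorphism to the group of affine permutations -/
noncomputable def psi (i1 : Fin n) (m : GG p → ZMod q) :
    FreeGroup (Fin n) →* Equiv.Perm (GG p × ZMod q) :=
  FreeGroup.lift fun i => sg (if i = i1 then m else fun _ => 0) (gT (v i))

lemma psi_form (i1 : Fin n) {m : GG p → ZMod q} (hm : m ∈ MM zG q) (x : FreeGroup (Fin n)) :
    ∃ f ∈ MM (zG (p := p)) q, psi p n q v i1 m x = sg f (phi p n v x) := by
  have h0 : ∀ i, (if i = i1 then m else fun _ => 0) ∈ MM (zG (p := p)) q := by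
    intro i
    split_ifs
    · exact hm
    · exact (MM zG q).zero_mem
  induction x using FreeGroup.induction_on with
  | C1 => exact ⟨fun _ => 0, (MM zG q).zero_mem, by rw [map_one, map_one, sg_one]⟩
  | of i =>
    refine ⟨_, h0 i, ?_⟩
    rw [psi, phi, FreeGroup.lift_apply_of, FreeGroup.lift_apply_of]
  | inv_of i _ =>
    refine ⟨fun h => -(if i = i1 then m else fun _ => 0) (gT (v i) * h), ?_, ?_⟩
    · exact (MM zG q).neg_mem (MM_trans zG (h0 i) _)
    · rw [map_inv, map_inv, psi, phi, FreeGroup.lift_apply_of, FreeGroup.lift_apply_of, sg_inv]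
  | mul x y hx hy =>
    obtain ⟨f, hf, hx⟩ := hx
    obtain ⟨f', hf', hy⟩ := hy
    refine ⟨fun h => f h + f' ((phi p n v x)⁻¹ * h), ?_, ?_⟩
    · exact (MM zG q).add_mem hf (MM_trans zG hf' _)
    · rw [map_mul, map_mul, hx, hy, sg_mul]

/-- primitive elements have order dividing `p ^ 2` -/
lemma psi_primitive (hv : LinearIndependent (ZMod p) v) (i1 : Fin n) {m : GG p → ZMod q}
    (hm : m ∈ MM zG q) (α : MulAut (FreeGroup (Fin n))) (i : Fin n) :
    psi p n q v i1 m (α (FreeGroup.of i)) ^ (p ^ 2) = 1 := by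
  obtain ⟨f, hf, hx⟩ := psi_form p n q v i1 hm (α (FreeGroup.of i))
  rw [hx]
  have h1 := vv_primitive p n v hv α i
  rw [← th_phi] at h1
  exact sg_order zG hf zG_central (norm_ne_zero h1) (pow_p _)

/-- the conjugates of `psi` -/
lemma psi_conj (hv : LinearIndependent (ZMod p) v) {i0 i1 : Fin n} (h01 : i0 ≠ i1) :
    ∃ (m : GG p → ZMod q), m ∈ MM zG q ∧ ∃ w : FreeGroup (Fin n), ∀ j k : ℕ,
      psi p n q v i1 m w ^ j * psi p n q v i1 m (FreeGroup.of i0) * (psi p n q v i1 m w ^ j)⁻¹ =
      psi p n q v i1 m w ^ k * psi p n q v i1 m (FreeGroup.of i0) * (psi p n q v i1 m w ^ k)⁻¹ →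
      (2 * j : ZMod q) = 2 * k := by
  set g0 : GG p := gT (v i0) with hg0
  set g1 : GG p := gT (v i1) with hg1
  have hth0 : (th g0).toAdd ≠ 0 := by
    rw [hg0, th_gT]
    exact hv.ne_zero i0
  set c : ZMod p := Algebra.norm (ZMod p) (Multiplicative.toAdd (th g0)) with hc
  have hc0 : c ≠ 0 := norm_ne_zero hth0
  have hpow : g0 ^ p = zG (Multiplicative.ofAdd c) := pow_p g0
  set z := zG (Multiplicative.ofAdd c) with hz
  refine ⟨mm p q c, mm_mem p q c,
    FreeGroup.of i0 ^ p * FreeGroup.of i1 * (FreeGroup.of i0 ^ p)⁻¹ * (FreeGroup.of i1)⁻¹, ?_⟩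
  set m := mm p q c with hm
  have hp0 : psi p n q v i1 m (FreeGroup.of i0) = sg (fun _ => 0) g0 := by
    rw [psi, FreeGroup.lift_apply_of, if_neg h01]
  have hp1 : psi p n q v i1 m (FreeGroup.of i1) = sg m g1 := by
    rw [psi, FreeGroup.lift_apply_of, if_pos rfl]
  have hp0p : (sg (fun _ => (0 : ZMod q)) g0) ^ p = sg (fun _ => 0) z := by
    rw [sg_pow, hpow]
    congr 1
    funext h
    simp
  have hw : psi p n q v i1 m (FreeGroup.of i0 ^ p * FreeGroup.of i1 * (FreeGroup.of i0 ^ p)⁻¹ *
      (FreeGroup.of i1)⁻¹) = sg (fun h => m (z⁻¹ * h) - m h) 1 := by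
    rw [map_mul, map_mul, map_mul, map_inv, map_inv, map_pow, hp0, hp1, hp0p, sg_mul, sg_inv,
      sg_inv, sg_mul, sg_mul]
    have h2 : z * g1 * z⁻¹ = g1 := by
      rw [hz, zG_central, mul_inv_cancel_right]
    have h3 : z * g1 * z⁻¹ * g1⁻¹ = 1 := by rw [h2, mul_inv_cancel]
    rw [h3]
    congr 1
    funext h
    have h4 : g1 * ((z * g1 * z⁻¹)⁻¹ * h) = h := by
      rw [h2, mul_inv_cancel_left]
    rw [h4]
    ring
  rw [hw, hp0]
  intro j k hjk
  simp only [sg_pow_one, sg_mul, sg_inv, one_mul, inv_one, mul_one] at hjk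
  have h5 := congrFun (sg_injective hjk).1 1
  have hz1 : z⁻¹ * 1 * z = 1 := by rw [mul_one, inv_mul_cancel]
  have hzne : z ≠ 1 := by
    intro h
    rw [hz] at h
    have h6 := zG_injective (h.trans (map_one zG).symm)
    exact hc0 (congrArg Multiplicative.toAdd h6)
  have hthz : th z = 1 := th_zG _
  have hth0' : th g0 ≠ 1 := fun h => hth0 (by rw [h]; rfl)
  have e1 : m (z⁻¹ * 1) = -1 := by
    show (_ - _ : ZMod q) = _
    rw [if_neg (by rw [mul_one]; exact inv_ne_one.2 hzne), if_pos hz1, zero_sub]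
  have e2 : m 1 = 1 := by
    show (_ - _ : ZMod q) = _
    rw [if_pos rfl, if_neg (by rw [one_mul]; exact hzne), sub_zero]
  have e3 : ∀ h : GG p, th h ≠ 1 → m h = 0 := by
    intro h hh
    show (_ - _ : ZMod q) = _
    rw [if_neg, if_neg, sub_zero]
    · intro h7
      apply hh
      have h8 := congrArg th h7
      rw [map_mul, th_zG, mul_one, map_one] at h8
      exact h8
    · rintro rfl
      exact hh (map_one th)
  have hg0' : th (g0⁻¹ * 1) ≠ 1 := by
    rw [mul_one, map_inv]
    exact inv_ne_one.2 hth0'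
  have hg0'' : th (z⁻¹ * (g0⁻¹ * 1)) ≠ 1 := by
    rw [map_mul, map_inv, hthz, inv_one, one_mul]
    exact hg0'
  simp only [e1, e2, e3 _ hg0', e3 _ hg0''] at h5
  linear_combination -h5

end Hom

end Pool.Agent.H87R2.NielsenB
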