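import Mathlib
import Pool.Agent.H87R2.GLTwo

set_option autoImplicit false

/-!
# Singer cycles in `GL_d(𝔽₂)`
-/

namespace Pool.Agent.H87R2.Singer

open Pool.Agent.H87R2.GLTwo

/-- If all elements of `GL_d(𝔽₂)` have order dividing `n`, then `2 ^ j - 1` divides `n`
for `j ≤ d`. -/
theorem dvd_of_exponent (d : ℕ) [NeZero d] (n : ℕ) (h : ∀ g : S d, g ^ n = 1) (j : ℕ)
    (hj1 : 1 ≤ j) (hjd : j ≤ d) : 2 ^ j - 1 ∣ n := by
  classical
  let K := GaloisField 2 j
  let W := Fin (d - j) → ZMod 2
  let V := ZMod d → ZMod 2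
  have hK : Module.finrank (ZMod 2) K = j := GaloisField.finrank 2 (by omega)
  have hfin : Module.finrank (ZMod 2) V = Module.finrank (ZMod 2) (K × W) := by
    rw [Module.finrank_prod, hK, Module.finrank_fintype_fun_eq_card,
      Module.finrank_fintype_fun_eq_card, ZMod.card, Fintype.card_fin]
    omega
  have : Module.Finite (ZMod 2) K := Module.finite_of_finrank_pos (by omega)
  let e : V ≃ₗ[ZMod 2] (K × W) := LinearEquiv.ofFinrankEq _ _ hfin
  let F : K →* (V →ₗ[ZMod 2] V) :=
    { toFun := fun u => e.symm.toLinearMap ∘ₗ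
        (LinearMap.prodMap (LinearMap.mulLeft (ZMod 2) u) LinearMap.id) ∘ₗ e.toLinearMap
      map_one' := by
        refine LinearMap.ext fun x => ?_
        simp
      map_mul' := fun u v => by
        refine LinearMap.ext fun x => ?_
        simp [Module.End.mul_apply, mul_assoc] }
  have hF : Function.Injective F := by
    intro u v huv
    have h1 := LinearMap.congr_fun huv (e.symm (1, 0))
    have h2 : e.symm ((u, 0) : K × W) = e.symm (v, 0) := by simpa [F] using h1
    have h3 := e.symm.injective h2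
    exact (Prod.mk.inj h3).1
  let A : (V →ₗ[ZMod 2] V) ≃ₐ[ZMod 2] Mt d := LinearMap.toMatrixAlgEquiv'
  let G : Kˣ →* S d := Units.map ((A : (V →ₗ[ZMod 2] V) →* Mt d).comp F)
  have hG : Function.Injective G := by
    intro u v huv
    have h1 : A (F u) = A (F v) := congrArg (fun t : S d => (t : Mt d)) huv
    exact Units.ext (hF (A.injective h1))
  have hpow : ∀ u : Kˣ, u ^ n = 1 := by
    intro u
    apply hG
    rw [map_pow, h, map_one]
  have h1 : Monoid.exponent Kˣ ∣ n := Monoid.exponent_dvd_of_forall_pow_eq_one hpow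
  have h2 : Monoid.exponent Kˣ = Nat.card Kˣ := IsCyclic.exponent_eq_card
  have h3 : Nat.card Kˣ = 2 ^ j - 1 := by
    rw [Nat.card_units, GaloisField.card 2 j (by omega)]
  rwa [h2, h3] at h1

end Pool.Agent.H87R2.Singer
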