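import Mathlib
import Pool.Agent.H87R2.GLTwo
import Pool.Agent.H87R2.LcmBound
import Pool.Agent.H87R2.Singer

set_option autoImplicit false
set_option linter.unusedSectionVars false

/-!
# A finitely generated residually finite non-linear group with polynomial index growth
-/

namespace Pool.Agent.H87R2.PIG

open Pool.Agent.H87R2.GLTwo Matrix

/-! ### relations in `GL_d(𝔽₂)` -/

section Rel

variable {d : ℕ} [NeZero d]

lemma E_comm {i j k l : ZMod d} (hij : i ≠ j) (hkl : k ≠ l) (hjk : j ≠ k) (hil : i ≠ l) :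
    E i j hij * E k l hkl = E k l hkl * E i j hij := by
  apply Units.ext
  have h1 : (Matrix.single i j (1 : ZMod 2) : Mt d) * Matrix.single k l 1 = 0 :=
    single_mul_single_of_ne _ _ _ _ hjk _
  have h2 : (Matrix.single k l (1 : ZMod 2) : Mt d) * Matrix.single i j 1 = 0 :=
    single_mul_single_of_ne _ _ _ _ hil.symm _
  have e1 : (1 + Matrix.single i j 1 : Mt d) * (1 + Matrix.single k l 1) =
      1 + Matrix.single i j 1 + Matrix.single k l 1 +
        Matrix.single i j 1 * Matrix.single k l 1 := by noncomm_ring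
  have e2 : (1 + Matrix.single k l 1 : Mt d) * (1 + Matrix.single i j 1) =
      1 + Matrix.single k l 1 + Matrix.single i j 1 +
        Matrix.single k l 1 * Matrix.single i j 1 := by noncomm_ring
  rw [Units.val_mul, Units.val_mul, E_val, E_val, e1, e2, h1, h2]
  abel

lemma E_mul_E {i j k : ZMod d} (hij : i ≠ j) (hjk : j ≠ k) (hik : i ≠ k) :
    E i j hij * E j k hjk * (E i j hij)⁻¹ * (E j k hjk)⁻¹ = E i k hik := by
  rw [mul_inv_eq_iff_eq_mul, mul_inv_eq_iff_eq_mul]
  apply Units.ext
  simp only [Units.val_mul, E_val]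
  have h1 : (Matrix.single i j (1 : ZMod 2) : Mt d) * Matrix.single j k 1 =
      Matrix.single i k 1 := by
    rw [single_mul_single_same, mul_one]
  have h2 : (Matrix.single i k (1 : ZMod 2) : Mt d) * Matrix.single j k 1 = 0 :=
    single_mul_single_of_ne _ _ _ _ hjk.symm _
  have h3 : (Matrix.single i k (1 : ZMod 2) : Mt d) * Matrix.single i j 1 = 0 :=
    single_mul_single_of_ne _ _ _ _ hik.symm _
  have h4 : (Matrix.single j k (1 : ZMod 2) : Mt d) * Matrix.single i j 1 = 0 :=
    single_mul_single_of_ne _ _ _ _ hik.symm _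
  have e1 : (1 + Matrix.single i j 1 : Mt d) * (1 + Matrix.single j k 1) =
      1 + Matrix.single i j 1 + Matrix.single j k 1 +
        Matrix.single i j 1 * Matrix.single j k 1 := by noncomm_ring
  have e2 : (1 + Matrix.single i k 1 : Mt d) * (1 + Matrix.single j k 1) =
      1 + Matrix.single i k 1 + Matrix.single j k 1 +
        Matrix.single i k 1 * Matrix.single j k 1 := by noncomm_ring
  rw [e1, e2, h1, h2, add_zero]
  have e3 : (1 + Matrix.single i k 1 + Matrix.single j k 1 : Mt d) * (1 + Matrix.single i j 1) =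
      1 + Matrix.single i k 1 + Matrix.single j k 1 + Matrix.single i j 1 +
        Matrix.single i k 1 * Matrix.single i j 1 + Matrix.single j k 1 * Matrix.single i j 1 := by
    noncomm_ring
  rw [e3, h3, h4]
  abel

/-- cyclic permutation matrices -/
def Pm (c : ZMod d) : Mt d := Matrix.of fun i j => if i = j + c then 1 else 0

lemma Pm_mul (c c' : ZMod d) : Pm c * Pm c' = Pm (c + c') := by
  ext i j
  rw [Matrix.mul_apply, Finset.sum_eq_single (j + c')]
  · show (if i = j + c' + c then (1 : ZMod 2) else 0) * (if j + c' = j + c' then 1 else 0) =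
      if i = j + (c + c') then 1 else 0
    rw [if_pos rfl, mul_one, show j + c' + c = j + (c + c') by ring]
  · intro b _ hb
    show (if i = b + c then (1 : ZMod 2) else 0) * (if b = j + c' then 1 else 0) = 0
    rw [if_neg hb, mul_zero]
  · intro h
    exact absurd (Finset.mem_univ _) h

lemma Pm_zero : Pm (0 : ZMod d) = 1 := by
  ext i j
  show (if i = j + 0 then (1 : ZMod 2) else 0) = _
  rw [add_zero, Matrix.one_apply]

/-- cyclic permutation matrices as units -/
def Ps (c : ZMod d) : S d :=
  ⟨Pm c, Pm (-c), by rw [Pm_mul, add_neg_cancel, Pm_zero], by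
    rw [Pm_mul, neg_add_cancel, Pm_zero]⟩

lemma Ps_mul (c c' : ZMod d) : Ps c * Ps c' = Ps (c + c') := Units.ext (Pm_mul c c')

lemma Ps_zero : Ps (0 : ZMod d) = 1 := Units.ext Pm_zero

lemma Ps_pow (k : ℕ) : (Ps (1 : ZMod d)) ^ k = Ps (k : ZMod d) := by
  induction k with
  | zero => rw [pow_zero, Nat.cast_zero, Ps_zero]
  | succ k ih => rw [pow_succ, ih, Ps_mul, Nat.cast_succ]

lemma conj_E (c : ZMod d) {i j : ZMod d} (h : i ≠ j) :
    Ps c * E i j h * (Ps c)⁻¹ = E (i + c) (j + c) (fun h' => h (add_right_cancel h')) := by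
  apply Units.ext
  rw [E, conj_tv, E, tv_val]
  congr 2
  · ext k
    rw [mulVec_single_one]
    show (if k = i + c then (1 : ZMod 2) else 0) = (Pi.single (i + c) 1 : ZMod d → ZMod 2) k
    rw [Pi.single_apply]
  · ext k
    rw [single_one_vecMul]
    show (if j = k + -c then (1 : ZMod 2) else 0) = (Pi.single (j + c) 1 : ZMod d → ZMod 2) k
    rw [Pi.single_apply]
    congr 1
    rw [eq_iff_iff]
    constructor
    · rintro rfl; ring
    · rintro rfl; ring

lemma one_ne {a b : ℕ} (ha : a < d) (hb : b < d) (hab : a ≠ b) :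
    (a : ZMod d) ≠ (b : ZMod d) := by
  intro h
  rw [ZMod.natCast_eq_natCast_iff'] at h
  rw [Nat.mod_eq_of_lt ha, Nat.mod_eq_of_lt hb] at h
  exact hab h

/-- a subgroup containing one elementary transvection and the cyclic permutation is everything -/
lemma eq_top (hd : 3 ≤ d) (H : Subgroup (S d)) (h01 : (0 : ZMod d) ≠ 1)
    (hE : E 0 1 h01 ∈ H) (hP : Ps 1 ∈ H) : H = ⊤ := by
  have h1 : ∀ c : ZMod d, Ps c ∈ H := by
    intro c
    have := H.pow_mem hP c.val
    rwa [Ps_pow, ZMod.natCast_zmod_val] at this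
  have h2 : ∀ (c : ZMod d) (h : c ≠ c + 1), E c (c + 1) h ∈ H := by
    intro c h
    have h3 := H.mul_mem (H.mul_mem (h1 c) hE) (H.inv_mem (h1 c))
    rw [conj_E] at h3
    have h4 : E (0 + c) (1 + c) (fun h' => h01 (add_right_cancel h')) = E c (c + 1) h := by
      congr 1
      · rw [zero_add]
      · rw [add_comm]
    rwa [h4] at h3
  have h3 : ∀ m : ℕ, 1 ≤ m → m < d → ∀ (i : ZMod d) (h : i ≠ i + m), E i (i + m) h ∈ H := by
    intro m hm
    induction m, hm using Nat.le_induction with
    | base =>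
      intro _ i h
      have h' : i ≠ i + 1 := by simpa using h
      have h4 : E i (i + (1 : ℕ)) h = E i (i + 1) h' := by
        congr 1
        rw [Nat.cast_one]
      rw [h4]
      exact h2 i h'
    | succ m hm ih =>
      intro hmd i h
      have e1 : i ≠ i + m := by
        intro h'
        have : (m : ZMod d) = (0 : ℕ) := by
          rw [Nat.cast_zero]
          exact left_eq_add.mp h'
        exact one_ne (by omega) (by omega) (by omega : m ≠ 0) this
      have e2 : i + (m : ZMod d) ≠ i + m + 1 := by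
        intro h'
        have h5 : (1 : ZMod d) = 0 := left_eq_add.mp h'
        exact h01 h5.symm
      have e3 : i + (m : ZMod d) + 1 = i + (m + 1 : ℕ) := by push_cast; ring
      have e4 : i ≠ i + (m : ZMod d) + 1 := by rw [e3]; exact h
      have h6 := E_mul_E e1 e2 e4
      have h7 : E i (i + (m : ZMod d) + 1) e4 = E i (i + (m + 1 : ℕ)) h := by
        congr 1
      rw [← h7, ← h6]
      have h8 := ih (by omega) i e1
      have h9 := h2 (i + m) e2
      exact H.mul_mem (H.mul_mem (H.mul_mem h8 h9) (H.inv_mem h8)) (H.inv_mem h9)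
  rw [eq_top_iff, ← closure_E, Subgroup.closure_le]
  rintro _ ⟨i, j, hij, rfl⟩
  have h4 : i + ((j - i).val : ZMod d) = j := by
    rw [ZMod.natCast_zmod_val]
    ring
  have h5 : i ≠ i + ((j - i).val : ZMod d) := by rw [h4]; exact hij
  have h6 := h3 (j - i).val (by
    rw [Nat.one_le_iff_ne_zero, Ne, ZMod.val_eq_zero]
    exact sub_ne_zero.2 hij.symm) (ZMod.val_lt _) i h5
  have h7 : E i (i + ((j - i).val : ZMod d)) h5 = E i j hij := by
    congr 1
  rwa [h7] at h6

lemma not_comm (h01 : (0 : ZMod d) ≠ 1) :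
    E 0 1 h01 * E 1 0 h01.symm ≠ E 1 0 h01.symm * E 0 1 h01 := by
  intro h
  have h1 := congrArg (fun U : S d => (U : Mt d) 0 0) h
  simp only [Units.val_mul, E_val] at h1
  have e1 : (1 + Matrix.single 0 1 1 : Mt d) * (1 + Matrix.single 1 0 1) =
      1 + Matrix.single 0 1 1 + Matrix.single 1 0 1 +
        Matrix.single 0 1 1 * Matrix.single 1 0 1 := by noncomm_ring
  have e2 : (1 + Matrix.single 1 0 1 : Mt d) * (1 + Matrix.single 0 1 1) =
      1 + Matrix.single 0 1 1 + Matrix.single 1 0 1 +
        Matrix.single 1 0 1 * Matrix.single 0 1 1 := by noncomm_ring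
  rw [e1, e2, single_mul_single_same, single_mul_single_same] at h1
  simp [h01.symm] at h1

end Rel

end Pool.Agent.H87R2.PIG
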