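import Mathlib
import Pool.Agent.H87R2.PIG

set_option autoImplicit false

namespace Pool.Agent.H87R2.PIG2

open Pool.Agent.H87R2.GLTwo Pool.Agent.H87R2.PIG

/-- the degrees -/
def D (i : ℕ) : ℕ := 2 ^ (i + 5)

instance (i : ℕ) : NeZero (D i) := ⟨by unfold D; positivity⟩

lemma D_ge (i : ℕ) : 32 ≤ D i := by
  unfold D
  calc 32 = 2 ^ 5 := by norm_num
    _ ≤ 2 ^ (i + 5) := Nat.pow_le_pow_right (by norm_num) (by omega)

lemma lt_D (i : ℕ) : i + 4 < D i := by
  unfold D
  have h1 : i < 2 ^ i := Nat.lt_two_pow_self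
  have h2 : 2 ^ (i + 5) = 2 ^ i * 32 := by rw [pow_add]; norm_num
  omega

lemma D_lt {i j : ℕ} (h : i < j) : D i < D j := by
  unfold D
  exact Nat.pow_lt_pow_right (by norm_num) (by omega)

/-- the big product -/
abbrev Γ : Type := ∀ i : ℕ, S (D i)

lemma h01 (i : ℕ) : (0 : ZMod (D i)) ≠ 1 := by
  have := one_ne (d := D i) (a := 0) (b := 1) (by have := D_ge i; omega) (by have := D_ge i; omega)
    (by norm_num)
  simpa using this

/-- first generator -/
def X : Γ := fun i => E 0 1 (h01 i)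

/-- second generator -/
def X' : Γ := fun i => E 1 0 (h01 i).symm

/-- third generator -/
def Y : Γ := fun _ => Ps 1

/-- the group -/
def G : Subgroup Γ := Subgroup.closure {X, X', Y}

lemma X_mem : X ∈ G := Subgroup.subset_closure (by simp)
lemma X'_mem : X' ∈ G := Subgroup.subset_closure (by simp)
lemma Y_mem : Y ∈ G := Subgroup.subset_closure (by simp)

lemma Y_pow (m i : ℕ) : (Y ^ m) i = Ps (m : ZMod (D i)) := by
  show (Ps 1 : S (D i)) ^ m = _
  rw [Ps_pow]

lemma conjX (m i : ℕ) : (Y ^ m * X * (Y ^ m)⁻¹) i =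
    E (0 + (m : ZMod (D i))) (1 + (m : ZMod (D i))) (fun h => h01 i (add_right_cancel h)) := by
  show (Y ^ m) i * X i * ((Y ^ m) i)⁻¹ = _
  rw [Y_pow]
  exact conj_E _ (h01 i)

lemma conjX' (m i : ℕ) : (Y ^ m * X' * (Y ^ m)⁻¹) i =
    E (1 + (m : ZMod (D i))) (0 + (m : ZMod (D i))) (fun h => (h01 i).symm (add_right_cancel h)) := by
  show (Y ^ m) i * X' i * ((Y ^ m) i)⁻¹ = _
  rw [Y_pow]
  exact conj_E _ (h01 i).symm

lemma surj (i : ℕ) (s : S (D i)) : ∃ g ∈ G, g i = s := by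
  have h : G.map (Pi.evalMonoidHom (fun i => S (D i)) i) = ⊤ := by
    apply eq_top (by have := D_ge i; omega) _ (h01 i)
    · exact ⟨X, X_mem, rfl⟩
    · exact ⟨Y, Y_mem, rfl⟩
  have h2 : s ∈ G.map (Pi.evalMonoidHom (fun i => S (D i)) i) := by rw [h]; trivial
  obtain ⟨g, hg, hgs⟩ := h2
  exact ⟨g, hg, hgs⟩

/-- elements of finite support belong to the group -/
lemma fin_supp (i : ℕ) : ∀ g : Γ, (∀ j, i ≤ j → g j = 1) → g ∈ G := by
  induction i with
  | zero =>
    intro g hg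
    have : g = 1 := funext fun j => hg j (Nat.zero_le j)
    rw [this]
    exact one_mem _
  | succ i ih =>
    let N : Subgroup (S (D i)) :=
      { carrier := {s | ∃ g ∈ G, g i = s ∧ ∀ j, i < j → g j = 1}
        one_mem' := ⟨1, one_mem _, rfl, fun _ _ => rfl⟩
        mul_mem' := by
          rintro s t ⟨g, hg, hgs, hg1⟩ ⟨h, hh, hht, hh1⟩
          refine ⟨g * h, mul_mem hg hh, ?_, fun j hj => ?_⟩
          · rw [Pi.mul_apply, hgs, hht]
          · rw [Pi.mul_apply, hg1 j hj, hh1 j hj, one_mul]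
        inv_mem' := by
          rintro s ⟨g, hg, hgs, hg1⟩
          refine ⟨g⁻¹, inv_mem hg, ?_, fun j hj => ?_⟩
          · rw [Pi.inv_apply, hgs]
          · rw [Pi.inv_apply, hg1 j hj, inv_one] }
    have hN : N.Normal := by
      constructor
      rintro s ⟨g, hg, hgs, hg1⟩ t
      obtain ⟨h, hh, hht⟩ := surj i t
      refine ⟨h * g * h⁻¹, mul_mem (mul_mem hh hg) (inv_mem hh), ?_, fun j hj => ?_⟩
      · rw [Pi.mul_apply, Pi.mul_apply, Pi.inv_apply, hgs, hht]
      · rw [Pi.mul_apply, Pi.mul_apply, Pi.inv_apply, hg1 j hj, mul_one, mul_inv_cancel]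
    have htop : N = ⊤ := by
      have hdi := D_ge i
      refine simple (by omega) N hN (A := E 0 1 (h01 i) * E 1 0 (h01 i).symm *
        (E 0 1 (h01 i))⁻¹ * (E 1 0 (h01 i).symm)⁻¹) ?_ ?_
      · set Z : Γ := Y ^ (D i) * X' * (Y ^ (D i))⁻¹ with hZ
        have hZm : Z ∈ G := mul_mem (mul_mem (pow_mem Y_mem _) X'_mem) (inv_mem (pow_mem Y_mem _))
        refine ⟨X * Z * X⁻¹ * Z⁻¹, mul_mem (mul_mem (mul_mem X_mem hZm) (inv_mem X_mem))
          (inv_mem hZm), ?_, fun j hj => ?_⟩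
        · have h1 : Z i = E 1 0 (h01 i).symm := by
            rw [hZ, conjX']
            congr 1
            · rw [ZMod.natCast_self, add_zero]
            · rw [ZMod.natCast_self, add_zero]
          show X i * Z i * (X i)⁻¹ * (Z i)⁻¹ = _
          rw [h1]
          rfl
        · show X j * Z j * (X j)⁻¹ * (Z j)⁻¹ = 1
          have h2 : Z j = _ := conjX' (D i) j
          have hne : ((D i : ℕ) : ZMod (D j)) ≠ 0 := by
            have := one_ne (d := D j) (a := D i) (b := 0) (D_lt hj)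
              (by have := D_ge j; omega) (by omega)
            simpa using this
          have h3 : X j * Z j = Z j * X j := by
            rw [h2]
            refine E_comm _ _ ?_ ?_
            · intro h
              exact hne (left_eq_add.mp h)
            · intro h
              rw [zero_add] at h
              exact hne h.symm
          rw [h3, mul_inv_cancel_right, mul_inv_cancel]
      · intro h
        rw [mul_inv_eq_one, mul_inv_eq_iff_eq_mul] at h
        exact not_comm (h01 i) h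
    intro g hg
    have hgi : g i ∈ N := by rw [htop]; trivial
    obtain ⟨g', hg', hgi', hg1⟩ := hgi
    have h1 : g * g'⁻¹ ∈ G := by
      apply ih
      intro j hj
      rw [Pi.mul_apply, Pi.inv_apply]
      rcases Nat.eq_or_lt_of_le hj with rfl | hj
      · rw [hgi', mul_inv_cancel]
      · rw [hg j (by omega), hg1 j hj, inv_one, one_mul]
    have h2 := mul_mem h1 hg'
    rwa [inv_mul_cancel_right] at h2

/-- the embedding of a factor -/
def iota (i : ℕ) : S (D i) →* G :=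
  (MonoidHom.mulSingle (fun i => S (D i)) i).codRestrict G fun s =>
    fin_supp (i + 1) _ fun j hj => Pi.mulSingle_eq_of_ne (by omega) _

lemma iota_val (i : ℕ) (s : S (D i)) : ((iota i s : G) : Γ) = Pi.mulSingle i s := rfl

lemma iota_injective (i : ℕ) : Function.Injective (iota i) := by
  intro s t h
  have h1 := congrArg (fun g : G => (g : Γ) i) h
  simpa [iota_val] using h1

/-- abstract generators -/
def x : G := ⟨X, X_mem⟩
/-- abstract generators -/
def x' : G := ⟨X', X'_mem⟩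
/-- abstract generators -/
def y : G := ⟨Y, Y_mem⟩

/-- the subgroup of elements of finite support -/
def P : Subgroup G where
  carrier := {g | ∃ i, ∀ j, i ≤ j → (g : Γ) j = 1}
  one_mem' := ⟨0, fun _ _ => rfl⟩
  mul_mem' := by
    rintro g h ⟨i, hi⟩ ⟨k, hk⟩
    refine ⟨max i k, fun j hj => ?_⟩
    show (g : Γ) j * (h : Γ) j = 1
    rw [hi j (le_trans (le_max_left _ _) hj), hk j (le_trans (le_max_right _ _) hj), one_mul]
  inv_mem' := by
    rintro g ⟨i, hi⟩
    refine ⟨i, fun j hj => ?_⟩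
    show ((g : Γ) j)⁻¹ = 1
    rw [hi j hj, inv_one]

instance : P.Normal := by
  constructor
  rintro g ⟨i, hi⟩ h
  refine ⟨i, fun j hj => ?_⟩
  show (h : Γ) j * (g : Γ) j * ((h : Γ) j)⁻¹ = 1
  rw [hi j hj, mul_one, mul_inv_cancel]

lemma rel1 : x = (x * (y * x * y⁻¹) * x⁻¹ * (y * x * y⁻¹)⁻¹) * (y * x' * y⁻¹) *
    (x * (y * x * y⁻¹) * x⁻¹ * (y * x * y⁻¹)⁻¹)⁻¹ * (y * x' * y⁻¹)⁻¹ := by
  apply Subtype.ext
  funext i
  have hdi := D_ge i
  have h02 : (0 : ZMod (D i)) ≠ 2 := by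
    have := one_ne (d := D i) (a := 0) (b := 2) (by omega) (by omega) (by omega)
    simpa using this
  have h12 : (1 : ZMod (D i)) ≠ 2 := by
    have := one_ne (d := D i) (a := 1) (b := 2) (by omega) (by omega) (by omega)
    simpa using this
  have e1 : (((y * x * y⁻¹ : G) : Γ) i) = E 1 2 h12 := by
    have := conjX 1 i
    rw [pow_one] at this
    refine this.trans ?_
    congr 1
    · push_cast; ring
    · push_cast; norm_num
  have e2 : (((y * x' * y⁻¹ : G) : Γ) i) = E 2 1 h12.symm := by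
    have := conjX' 1 i
    rw [pow_one] at this
    refine this.trans ?_
    congr 1
    · push_cast; norm_num
    · push_cast; ring
  have e3 : (((x * (y * x * y⁻¹) * x⁻¹ * (y * x * y⁻¹)⁻¹ : G) : Γ) i) = E 0 2 h02 := by
    show (x : Γ) i * ((y * x * y⁻¹ : G) : Γ) i * ((x : Γ) i)⁻¹ * (((y * x * y⁻¹ : G) : Γ) i)⁻¹ = _
    rw [e1]
    exact E_mul_E (h01 i) h12 h02
  show (x : Γ) i = ((x * (y * x * y⁻¹) * x⁻¹ * (y * x * y⁻¹)⁻¹ : G) : Γ) i *
    ((y * x' * y⁻¹ : G) : Γ) i *
    (((x * (y * x * y⁻¹) * x⁻¹ * (y * x * y⁻¹)⁻¹ : G) : Γ) i)⁻¹ * (((y * x' * y⁻¹ : G) : Γ) i)⁻¹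
  rw [e3, e2]
  exact (E_mul_E h02 h12.symm (h01 i)).symm

lemma rel2 : x' = (y * x * y⁻¹) * ((y * x' * y⁻¹) * x' * (y * x' * y⁻¹)⁻¹ * x'⁻¹) *
    (y * x * y⁻¹)⁻¹ * ((y * x' * y⁻¹) * x' * (y * x' * y⁻¹)⁻¹ * x'⁻¹)⁻¹ := by
  apply Subtype.ext
  funext i
  have hdi := D_ge i
  have h02 : (0 : ZMod (D i)) ≠ 2 := by
    have := one_ne (d := D i) (a := 0) (b := 2) (by omega) (by omega) (by omega)
    simpa using this
  have h12 : (1 : ZMod (D i)) ≠ 2 := by
    have := one_ne (d := D i) (a := 1) (b := 2) (by omega) (by omega) (by omega)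
    simpa using this
  have e1 : (((y * x * y⁻¹ : G) : Γ) i) = E 1 2 h12 := by
    have := conjX 1 i
    rw [pow_one] at this
    refine this.trans ?_
    congr 1
    · push_cast; ring
    · push_cast; norm_num
  have e2 : (((y * x' * y⁻¹ : G) : Γ) i) = E 2 1 h12.symm := by
    have := conjX' 1 i
    rw [pow_one] at this
    refine this.trans ?_
    congr 1
    · push_cast; norm_num
    · push_cast; ring
  have e3 : ((((y * x' * y⁻¹) * x' * (y * x' * y⁻¹)⁻¹ * x'⁻¹ : G) : Γ) i) = E 2 0 h02.symm := by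
    show ((y * x' * y⁻¹ : G) : Γ) i * (x' : Γ) i * (((y * x' * y⁻¹ : G) : Γ) i)⁻¹ *
      ((x' : Γ) i)⁻¹ = _
    rw [e2]
    exact E_mul_E h12.symm (h01 i).symm h02.symm
  show (x' : Γ) i = ((y * x * y⁻¹ : G) : Γ) i *
    (((y * x' * y⁻¹) * x' * (y * x' * y⁻¹)⁻¹ * x'⁻¹ : G) : Γ) i *
    (((y * x * y⁻¹ : G) : Γ) i)⁻¹ *
    ((((y * x' * y⁻¹) * x' * (y * x' * y⁻¹)⁻¹ * x'⁻¹ : G) : Γ) i)⁻¹
  rw [e3, e1]
  exact (E_mul_E h12 h02.symm (h01 i).symm).symm

lemma comm_P (m : ℕ) (hm : 1 ≤ m) :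
    x * (y ^ (m + 1) * x * (y ^ (m + 1))⁻¹) * x⁻¹ * (y ^ (m + 1) * x * (y ^ (m + 1))⁻¹)⁻¹ ∈ P := by
  refine ⟨m, fun j hj => ?_⟩
  have hDj := lt_D j
  set z : S (D j) := (Y ^ (m + 1) * X * (Y ^ (m + 1))⁻¹ : Γ) j with hz
  show X j * z * (X j)⁻¹ * z⁻¹ = 1
  have h3 : X j * z = z * X j := by
    rw [hz, conjX]
    refine E_comm _ _ ?_ ?_
    · intro h
      have := one_ne (d := D j) (a := 1) (b := m + 1) (by omega) (by omega) (by omega)
      apply this
      rw [Nat.cast_one]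
      rw [zero_add] at h
      exact h
    · intro h
      have := one_ne (d := D j) (a := 0) (b := m + 2) (by omega) (by omega) (by omega)
      apply this
      rw [Nat.cast_zero, h]
      push_cast
      ring
  rw [h3, mul_inv_cancel_right, mul_inv_cancel]

lemma comm_P' (m : ℕ) (hm : 1 ≤ m) :
    (y ^ (m + 1) * x' * (y ^ (m + 1))⁻¹) * x' * (y ^ (m + 1) * x' * (y ^ (m + 1))⁻¹)⁻¹ * x'⁻¹
      ∈ P := by
  refine ⟨m, fun j hj => ?_⟩
  have hDj := lt_D j
  set z : S (D j) := (Y ^ (m + 1) * X' * (Y ^ (m + 1))⁻¹ : Γ) j with hz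
  show z * X' j * z⁻¹ * (X' j)⁻¹ = 1
  have h3 : z * X' j = X' j * z := by
    rw [hz, conjX']
    refine E_comm _ _ ?_ ?_
    · intro h
      have := one_ne (d := D j) (a := 1) (b := m + 1) (by omega) (by omega) (by omega)
      apply this
      rw [Nat.cast_one]
      rw [zero_add] at h
      exact h.symm
    · intro h
      have := one_ne (d := D j) (a := 0) (b := m + 2) (by omega) (by omega) (by omega)
      apply this
      rw [Nat.cast_zero, ← h]
      push_cast
      ring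
  rw [h3, mul_inv_cancel_right, mul_inv_cancel]

/-- the generators `x, x'` lie in every normal subgroup of finite index containing `P` -/
lemma x_mem (U : Subgroup G) [U.Normal] [U.FiniteIndex] (hP : P ≤ U) : x ∈ U ∧ x' ∈ U := by
  let q : G →* G ⧸ U := QuotientGroup.mk' U
  have hq : ∀ g, q g = 1 ↔ g ∈ U := fun g => QuotientGroup.eq_one_iff g
  have : Finite (G ⧸ U) := inferInstance
  set m := Nat.card (G ⧸ U) with hm
  have hm1 : 1 ≤ m := Nat.card_pos
  have hym : q y ^ m = 1 := pow_card_eq_one'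
  have h1 : ∀ g : G, q (y ^ (m + 1) * g * (y ^ (m + 1))⁻¹) = q (y * g * y⁻¹) := by
    intro g
    simp only [map_mul, map_pow, map_inv, pow_succ, hym, one_mul]
  refine ⟨?_, ?_⟩
  · have h2 := (hq _).2 (hP (comm_P m hm1))
    have h3 : q (x * (y * x * y⁻¹) * x⁻¹ * (y * x * y⁻¹)⁻¹) = 1 := by
      rw [← h2]
      rw [map_mul q, map_mul q, map_mul q, map_inv q (y * x * y⁻¹), ← h1 x, ← map_inv q,
        ← map_mul q, ← map_mul q, ← map_mul q]
    rw [← hq, rel1, map_mul, map_mul, map_mul, map_inv, map_inv, h3]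
    group
  · have h2 := (hq _).2 (hP (comm_P' m hm1))
    have h3 : q ((y * x' * y⁻¹) * x' * (y * x' * y⁻¹)⁻¹ * x'⁻¹) = 1 := by
      rw [← h2]
      rw [map_mul q, map_mul q, map_mul q, map_inv q (y * x' * y⁻¹), ← h1 x', ← map_inv q,
        ← map_mul q, ← map_mul q, ← map_mul q]
    rw [← hq, rel2, map_mul, map_mul, map_mul, map_inv, map_inv, h3]
    group

end Pool.Agent.H87R2.PIG2
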