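import Mathlib
import Pool.Agent.H87R2.PIG2
import Pool.Agent.H87R2.LcmBound
import Pool.Agent.H87R2.Singer

set_option autoImplicit false

namespace Pool.Agent.H87R2.PIG3

open Pool.Agent.H87R2.GLTwo Pool.Agent.H87R2.PIG Pool.Agent.H87R2.PIG2

lemma fg : Group.FG G :=
  (Group.fg_iff_subgroup_fg G).2 ((Subgroup.fg_iff G).2 ⟨{X, X', Y}, rfl, Set.toFinite _⟩)

lemma closure_top : Subgroup.closure ({x, x', y} : Set G) = ⊤ := by
  rw [eq_top_iff]
  rintro ⟨g, hg⟩ -
  have h1 : (Subgroup.closure ({x, x', y} : Set G)).map G.subtype = G := by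
    rw [MonoidHom.map_closure]
    congr 1
    ext z
    simp [x, x', y, eq_comm]
  have h2 : g ∈ (Subgroup.closure ({x, x', y} : Set G)).map G.subtype := by
    rw [h1]; exact hg
  obtain ⟨w, hw, hwg⟩ := h2
  have : w = ⟨g, hg⟩ := Subtype.ext hwg
  rwa [← this]

lemma resfin (g : G) (hg : g ≠ 1) : ∃ N : Subgroup G, N.Normal ∧ N.FiniteIndex ∧ g ∉ N := by
  obtain ⟨i, hi⟩ : ∃ i, (g : Γ) i ≠ 1 := by
    by_contra h
    push Not at h
    exact hg (Subtype.ext (funext h))
  let f : G →* S (D i) := (Pi.evalMonoidHom (fun i => S (D i)) i).comp G.subtype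
  refine ⟨f.ker, inferInstance, ?_, hi⟩
  exact Subgroup.finiteIndex_ker f

/-- the elements supported on the first `k` coordinates -/
def T (k : ℕ) : Set G := {g | ∀ j, k ≤ j → (g : Γ) j = 1}

lemma card_S (d : ℕ) [NeZero d] : Nat.card (S d) ≤ 2 ^ (d ^ 2) := by
  have h1 : Nat.card (S d) ≤ Nat.card (Mt d) :=
    Nat.card_le_card_of_injective (fun u : S d => (u : Mt d)) Units.val_injective
  refine h1.trans (le_of_eq ?_)
  show Nat.card (ZMod d → ZMod d → ZMod 2) = _
  rw [Nat.card_eq_fintype_card, Fintype.card_fun, Fintype.card_fun, ZMod.card, ZMod.card,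
    ← pow_mul, pow_two]

lemma sum_D (k : ℕ) : ∑ i ∈ Finset.range (k + 1), D i ^ 2 ≤ 2 * D k ^ 2 := by
  induction k with
  | zero => simp; omega
  | succ k ih =>
    rw [Finset.sum_range_succ]
    have h1 : D (k + 1) = 2 * D k := by unfold D; rw [show k + 1 + 5 = (k + 5) + 1 by ring, pow_succ]; ring
    rw [h1]
    nlinarith

lemma card_T (k : ℕ) : (T k).Finite ∧ (T k).ncard ≤ 2 ^ (∑ i ∈ Finset.range k, D i ^ 2) := by
  classical
  let R : Type := ∀ i : Fin k, S (D i)
  let f : T k → R := fun g i => (g.1 : Γ) i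
  have hf : Function.Injective f := by
    intro g h hgh
    apply Subtype.ext
    apply Subtype.ext
    funext j
    by_cases hj : j < k
    · exact congrFun hgh ⟨j, hj⟩
    · rw [g.2 j (by omega), h.2 j (by omega)]
  have : Finite R := inferInstanceAs (Finite (∀ i : Fin k, S (D i)))
  have hfin : Finite (T k) := Finite.of_injective f hf
  refine ⟨Set.toFinite _, ?_⟩
  rw [← Nat.card_coe_set_eq]
  refine (Nat.card_le_card_of_injective f hf).trans ?_
  rw [Nat.card_pi, Finset.prod_fin_eq_prod_range]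
  rw [← Finset.prod_pow_eq_pow_sum]
  refine Finset.prod_le_prod' fun i hi => ?_
  rw [Finset.mem_range] at hi
  rw [dif_pos hi]
  exact card_S (D i)

/-- the power subgroup of a quotient -/
lemma index_bound (H : Subgroup G) [H.Normal] [H.FiniteIndex] (n : ℕ) (hn : 0 < n)
    (hexp : ∀ g : G, g ^ n ∈ H) : H.index ≤ n ^ 33 := by
  classical
  let q : G →* G ⧸ H := QuotientGroup.mk' H
  have hq : ∀ g, q g = 1 ↔ g ∈ H := fun g => QuotientGroup.eq_one_iff g
  have hqn : ∀ g, q g ^ n = 1 := fun g => by rw [← map_pow, hq]; exact hexp g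
  -- the factors that survive
  let B : ℕ → Prop := fun i => ∃ s, q (iota i s) ≠ 1
  have hB : ∀ i, B i → 2 ^ (4 ^ (i + 3)) ≤ n := by
    rintro i ⟨s, hs⟩
    let f : S (D i) →* G ⧸ H := q.comp (iota i)
    have hker : f.ker = ⊥ := by
      by_contra hne
      obtain ⟨⟨A, hA⟩, hA0⟩ := (Subgroup.ne_bot_iff_exists_ne_one).1 hne
      have hA1 : A ≠ 1 := fun h => hA0 (Subtype.ext h)
      have htop := simple (by have := D_ge i; omega) f.ker inferInstance hA hA1
      exact hs (by
        have : s ∈ f.ker := by rw [htop]; trivial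
        exact this)
    have hinj : Function.Injective f := (MonoidHom.ker_eq_bot_iff f).1 hker
    have hSn : ∀ s : S (D i), s ^ n = 1 := by
      intro s
      apply hinj
      rw [map_pow, map_one]
      exact hqn _
    refine LcmBound.bound (D i) (D_ge i) (4 ^ (i + 3)) ?_ n hn
      (Singer.dvd_of_exponent (D i) n hSn)
    unfold D
    rw [← pow_mul, show (i + 5) * 2 = 2 * (i + 5) by ring, pow_mul, pow_add (4 : ℕ) i 3]
    rw [show (2 : ℕ) ^ 2 = 4 by norm_num, pow_add (4 : ℕ) i 5]
    norm_num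
    omega
  -- a bound beyond which nothing survives
  have hex : ∃ k, ∀ i, k ≤ i → ¬ B i := by
    refine ⟨n, fun i hi hBi => ?_⟩
    have h1 := hB i hBi
    have h2 : i < 2 ^ (4 ^ (i + 3)) := by
      have h3 : i < 4 ^ (i + 3) := by
        calc i < 4 ^ i := Nat.lt_pow_self (by norm_num)
          _ ≤ 4 ^ (i + 3) := Nat.pow_le_pow_right (by norm_num) (by omega)
      exact h3.trans Nat.lt_two_pow_self
    omega
  let k := Nat.find hex
  have hk : ∀ i, k ≤ i → ¬ B i := Nat.find_spec hex
  have hkT : (T k).ncard ≤ n ^ 32 := by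
    refine (card_T k).2.trans ?_
    rcases Nat.eq_zero_or_pos k with h0 | hpos
    · rw [h0]
      simp only [Finset.range_zero, Finset.sum_empty, pow_zero]
      exact Nat.one_le_pow _ _ hn
    · obtain ⟨l, hl⟩ : ∃ l, k = l + 1 := ⟨k - 1, by omega⟩
      have hBl : B l := by
        by_contra hcon
        have : k ≤ l := Nat.find_min' hex (fun i hi => by
          rcases Nat.eq_or_lt_of_le hi with rfl | hi
          · exact hcon
          · exact hk i (by omega))
        omega
      have h1 := hB l hBl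
      calc 2 ^ (∑ i ∈ Finset.range k, D i ^ 2) ≤ 2 ^ (2 * D l ^ 2) := by
            rw [hl]
            exact Nat.pow_le_pow_right (by norm_num) (sum_D l)
        _ = (2 ^ (4 ^ (l + 3))) ^ 32 := by
            rw [← pow_mul]
            congr 1
            unfold D
            rw [← pow_mul, show (l + 5) * 2 = 2 * (l + 5) by ring, pow_mul, pow_add (4 : ℕ) l 3]
            rw [show (2 : ℕ) ^ 2 = 4 by norm_num, pow_add (4 : ℕ) l 5]
            ring
        _ ≤ n ^ 32 := Nat.pow_le_pow_left h1 32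
  -- finite support elements
  have hP : ∀ m, ∀ g : G, (∀ j, m ≤ j → (g : Γ) j = 1) → ∃ t ∈ T k, q g = q t := by
    intro m
    induction m with
    | zero =>
      intro g hg
      exact ⟨g, fun j _ => hg j (Nat.zero_le _), rfl⟩
    | succ m ih =>
      intro g hg
      by_cases hmk : k ≤ m
      · let g' : G := g * (iota m ((g : Γ) m))⁻¹
        have hg' : ∀ j, m ≤ j → (g' : Γ) j = 1 := by
          intro j hj
          show (g : Γ) j * ((Pi.mulSingle m ((g : Γ) m) : Γ) j)⁻¹ = 1
          rcases Nat.eq_or_lt_of_le hj with rfl | hj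
          · rw [Pi.mulSingle_eq_same, mul_inv_cancel]
          · rw [Pi.mulSingle_eq_of_ne (by omega), inv_one, mul_one, hg j (by omega)]
        obtain ⟨t, ht, hqt⟩ := ih g' hg'
        refine ⟨t, ht, ?_⟩
        rw [← hqt]
        show q g = q (g * _)
        rw [map_mul, map_inv]
        have : q (iota m ((g : Γ) m)) = 1 := by
          by_contra hne
          exact hk m hmk ⟨_, hne⟩
        rw [this, inv_one, mul_one]
      · exact ⟨g, fun j hj => hg j (by omega), rfl⟩
  -- the quotient by finite support elements is cyclic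
  let U : Subgroup G := P ⊔ H
  have hHU : H ≤ U := le_sup_right
  have : U.FiniteIndex := Subgroup.finiteIndex_of_le hHU
  obtain ⟨hxU, hx'U⟩ := x_mem U le_sup_left
  have hgen : ∀ g : G, ∃ r : ℤ, g * (y ^ r)⁻¹ ∈ U := by
    intro g
    have hg : g ∈ Subgroup.closure ({x, x', y} : Set G) := by rw [closure_top]; trivial
    let qU : G →* G ⧸ U := QuotientGroup.mk' U
    have hqU : ∀ g, qU g = 1 ↔ g ∈ U := fun g => QuotientGroup.eq_one_iff g
    have h1 : qU g ∈ Subgroup.zpowers (qU y) := by
      have h2 : Subgroup.closure ({x, x', y} : Set G) ≤ (Subgroup.zpowers (qU y)).comap qU := by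
        rw [Subgroup.closure_le]
        rintro z (rfl | rfl | rfl)
        · rw [SetLike.mem_coe, Subgroup.mem_comap, (hqU x).2 hxU]
          exact one_mem _
        · rw [SetLike.mem_coe, Subgroup.mem_comap, (hqU x').2 hx'U]
          exact one_mem _
        · exact Subgroup.mem_zpowers _
      exact h2 hg
    obtain ⟨r, hr⟩ := Subgroup.mem_zpowers_iff.1 h1
    refine ⟨r, ?_⟩
    rw [← hqU, map_mul, map_inv, map_zpow, hr, mul_inv_cancel]
  -- a surjection
  let Φ : (T k) × Fin n → G ⧸ H := fun z => q z.1.1 * q y ^ (z.2 : ℕ)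
  have hΦ : Function.Surjective Φ := by
    intro z
    obtain ⟨g, rfl⟩ := QuotientGroup.mk'_surjective H z
    obtain ⟨r, hr⟩ := hgen g
    obtain ⟨p, hp, h, hh, hph⟩ := Subgroup.mem_sup_of_normal_right.1 hr
    obtain ⟨i, hi⟩ := hp
    obtain ⟨t, ht, hqt⟩ := hP i p hi
    have hn0 : (n : ℤ) ≠ 0 := by exact_mod_cast hn.ne'
    have h1 : 0 ≤ r % (n : ℤ) := Int.emod_nonneg r hn0
    have h2 : r % (n : ℤ) < n := Int.emod_lt_of_pos r (by exact_mod_cast hn)
    obtain ⟨e, he⟩ := Int.eq_ofNat_of_zero_le h1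
    refine ⟨(⟨t, ht⟩, ⟨e, by omega⟩), ?_⟩
    show q t * q y ^ e = q g
    have h3 : q y ^ e = q y ^ r := by
      have h4 : q y ^ (r % (n : ℤ)) = q y ^ r := by
        conv_rhs => rw [← Int.emod_add_mul_ediv r n, zpow_add, zpow_mul, zpow_natCast (q y) n, hqn,
          one_zpow, mul_one]
      rw [← h4, he]
      rfl
    have h5 : g = p * h * y ^ r := by rw [hph]; group
    rw [h3, h5, map_mul, map_mul, map_zpow, (hq h).2 hh, mul_one, hqt]
  have hfinT : Finite (T k) := (card_T k).1
  have h6 : Nat.card (G ⧸ H) ≤ Nat.card ((T k) × Fin n) := Nat.card_le_card_of_surjective Φ hΦ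
  rw [Nat.card_prod, Nat.card_coe_set_eq, Nat.card_eq_fintype_card (α := Fin n),
    Fintype.card_fin] at h6
  calc H.index = Nat.card (G ⧸ H) := rfl
    _ ≤ (T k).ncard * n := h6
    _ ≤ n ^ 32 * n := Nat.mul_le_mul_right _ hkT
    _ = n ^ 33 := by ring

lemma pig (N : Subgroup G) (hN : N.Normal) (hfin : N.FiniteIndex) (n : ℕ) (hn : 0 < n) :
    (N ⊔ Subgroup.closure {z : G | ∃ g : G, g ^ n = z}).index ≤ 1 * n ^ 33 := by
  have h1 : (Subgroup.closure {z : G | ∃ g : G, g ^ n = z}).Normal := by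
    have h2 : Group.conjugatesOfSet {z : G | ∃ g : G, g ^ n = z} = {z : G | ∃ g : G, g ^ n = z} := by
      apply Set.Subset.antisymm
      · intro z hz
        rw [Group.mem_conjugatesOfSet_iff] at hz
        obtain ⟨_, ⟨g, rfl⟩, hc⟩ := hz
        obtain ⟨c, rfl⟩ := isConj_iff.1 hc
        exact ⟨c * g * c⁻¹, conj_pow⟩
      · exact Group.subset_conjugatesOfSet
    have h3 := Subgroup.normalClosure_normal (s := {z : G | ∃ g : G, g ^ n = z})
    rw [Subgroup.normalClosure, h2] at h3
    exact h3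
  have h2 : (N ⊔ Subgroup.closure {z : G | ∃ g : G, g ^ n = z}).FiniteIndex :=
    Subgroup.finiteIndex_of_le le_sup_left
  rw [one_mul]
  exact index_bound _ n hn fun g =>
    Subgroup.mem_sup_right (Subgroup.subset_closure ⟨g, rfl⟩)

/-- the group is not linear -/
lemma not_linear (K : Type) [Field K] (m : ℕ) (ρ : G →* Matrix.GeneralLinearGroup (Fin m) K)
    (hρ : Function.Injective ρ) : False := by
  let a : ℕ → G := fun i => iota i (E 0 1 (h01 i))
  let b : ℕ → G := fun i => iota i (E 1 0 (h01 i).symm)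
  have hab : ∀ i, a i * b i ≠ b i * a i := by
    intro i h
    have h1 : iota i (E 0 1 (h01 i) * E 1 0 (h01 i).symm) =
        iota i (E 1 0 (h01 i).symm * E 0 1 (h01 i)) := by rw [map_mul, map_mul]; exact h
    exact not_comm (h01 i) (iota_injective i h1)
  have hcomm : ∀ i j, i ≠ j → ∀ (s : S (D i)) (t : S (D j)),
      iota i s * iota j t = iota j t * iota i s := by
    intro i j hij s t
    apply Subtype.ext
    show (Pi.mulSingle i s : Γ) * Pi.mulSingle j t = Pi.mulSingle j t * Pi.mulSingle i s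
    exact Pi.mulSingle_commute (f := fun i => S (D i)) hij s t
  let M := Matrix (Fin m) (Fin m) K
  let C : ℕ → Submodule K M := fun k =>
    { carrier := {A | ∀ i < k, A * (ρ (a i) : M) = (ρ (a i) : M) * A ∧
        A * (ρ (b i) : M) = (ρ (b i) : M) * A}
      zero_mem' := fun i _ => by simp
      add_mem' := fun {A A'} h h' i hi => by
        obtain ⟨h1, h2⟩ := h i hi
        obtain ⟨h3, h4⟩ := h' i hi
        rw [add_mul, add_mul, mul_add, mul_add, h1, h2, h3, h4]
        exact ⟨rfl, rfl⟩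
      smul_mem' := fun c A h i hi => by
        obtain ⟨h1, h2⟩ := h i hi
        rw [smul_mul_assoc, smul_mul_assoc, mul_smul_comm, mul_smul_comm, h1, h2]
        exact ⟨rfl, rfl⟩ }
  let f : ℕ →o (Submodule K M)ᵒᵈ := ⟨fun k => OrderDual.toDual (C k), fun k l hkl A hA i hi =>
    hA i (lt_of_lt_of_le hi hkl)⟩
  obtain ⟨n, hn⟩ := IsArtinian.monotone_stabilizes f
  have h1 : C n = C (n + 1) := hn (n + 1) (Nat.le_succ n)
  have h2 : (ρ (b n) : M) ∈ C n := by
    intro i hi
    have h3 := hcomm n i (by omega) (E 1 0 (h01 n).symm) (E 0 1 (h01 i))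
    have h4 := hcomm n i (by omega) (E 1 0 (h01 n).symm) (E 1 0 (h01 i).symm)
    have h5 := congrArg (fun g => ((ρ g : Matrix.GeneralLinearGroup (Fin m) K) : M)) h3
    have h6 := congrArg (fun g => ((ρ g : Matrix.GeneralLinearGroup (Fin m) K) : M)) h4
    simp only [map_mul, Units.val_mul] at h5 h6
    exact ⟨h5, h6⟩
  rw [h1] at h2
  have h3 := (h2 n (Nat.lt_succ_self n)).1
  apply hab n
  apply hρ
  apply Units.ext
  rw [map_mul, map_mul, Units.val_mul, Units.val_mul]
  exact h3.symm

end Pool.Agent.H87R2.PIG3
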